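import Mathlib

set_option autoImplicit false

open Filter Topology Set Metric MeasureTheory
open scoped ENNReal Pointwise

namespace Pool.Agent.R231.SN

/-- `ℂⁿ` with the Euclidean norm -/
abbrev E (n : ℕ) := EuclideanSpace ℂ (Fin n)

/-- the unit sphere of `ℂⁿ` -/
abbrev S (n : ℕ) := sphere (0 : E n) 1

/-- the normalized surface measure of the sphere -/
noncomputable def sig (n : ℕ) : Measure (S n) :=
  ((volume : Measure (E n)).toSphere univ)⁻¹ • (volume : Measure (E n)).toSphere

variable {n : ℕ}

/-- the map of the sphere given by a linear isometry -/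
noncomputable def smap (U : E n ≃ₗᵢ[ℝ] E n) (u : S n) : S n :=
  ⟨U u, by
    have h : ‖(u : E n)‖ = 1 := norm_eq_of_mem_sphere u
    rw [mem_sphere_zero_iff_norm, U.norm_map, h]⟩

lemma smap_continuous (U : E n ≃ₗᵢ[ℝ] E n) : Continuous (smap U) :=
  Continuous.subtype_mk (U.continuous.comp continuous_subtype_val) _

lemma toSphere_map (U : E n ≃ₗᵢ[ℝ] E n) :
    Measure.map (smap U) ((volume : Measure (E n)).toSphere) = (volume : Measure (E n)).toSphere := by
  ext s hs
  rw [Measure.map_apply (smap_continuous U).measurable hs,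
    Measure.toSphere_apply' _ ((smap_continuous U).measurable hs), Measure.toSphere_apply' _ hs]
  congr 1
  have h1 : (Ioo (0 : ℝ) 1 • ((↑) '' (smap U ⁻¹' s)) : Set (E n)) =
      U ⁻¹' (Ioo (0 : ℝ) 1 • ((↑) '' s)) := by
    ext x
    constructor
    · rintro ⟨c, hc, _, ⟨u, hu, rfl⟩, rfl⟩
      refine ⟨c, hc, U u, ⟨smap U u, hu, rfl⟩, ?_⟩
      show c • U (u : E n) = U (c • (u : E n))
      rw [map_smul]
    · rintro ⟨c, hc, _, ⟨u, hu, rfl⟩, h⟩
      refine ⟨c, hc, U.symm u, ⟨⟨U.symm u, ?_⟩, ?_, rfl⟩, ?_⟩
      · have h : ‖(u : E n)‖ = 1 := norm_eq_of_mem_sphere u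
        rw [mem_sphere_zero_iff_norm, U.symm.norm_map, h]
      · show smap U ⟨U.symm u, _⟩ ∈ s
        have : smap U ⟨U.symm u, by
            have h : ‖(u : E n)‖ = 1 := norm_eq_of_mem_sphere u
            rw [mem_sphere_zero_iff_norm, U.symm.norm_map, h]⟩ = u := by
          apply Subtype.ext
          simp [smap]
        rw [this]; exact hu
      · have h' : c • (u : E n) = U x := h
        show c • U.symm (u : E n) = x
        rw [← map_smul, h', U.symm_apply_apply]
  rw [h1]
  exact (U.measurePreserving).measure_preimage_equiv (f := U.toMeasurableEquiv) _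

lemma sig_map (U : E n ≃ₗᵢ[ℝ] E n) : Measure.map (smap U) (sig n) = sig n := by
  unfold sig
  rw [Measure.map_smul, toSphere_map]

instance [NeZero n] : Nontrivial (E n) := by
  refine ⟨⟨EuclideanSpace.single (0 : Fin n) (1 : ℂ), 0, ?_⟩⟩
  intro h
  have := congrArg (fun v : E n => v 0) h
  simp at this

instance [NeZero n] : IsProbabilityMeasure (sig n) := by
  constructor
  unfold sig
  rw [Measure.smul_apply, smul_eq_mul]
  apply ENNReal.inv_mul_cancel
  · rw [Measure.measure_univ_ne_zero]
    exact Measure.toSphere_ne_zero _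
  · exact measure_ne_top _ _

instance [NeZero n] : (sig n).IsOpenPosMeasure := by
  constructor
  intro U hU hne
  unfold sig
  rw [Measure.smul_apply, smul_eq_mul]
  apply mul_ne_zero
  · exact ENNReal.inv_ne_zero.2 (measure_ne_top _ _)
  · exact hU.measure_ne_zero _ hne

/-- multiplication of the coordinates by phases -/
noncomputable def ph (θ : Fin n → ℝ) : E n ≃ₗᵢ[ℝ] E n :=
  LinearIsometryEquiv.piLpCongrRight 2 (fun i => rotation (Circle.exp (θ i)))

lemma ph_apply (θ : Fin n → ℝ) (x : E n) (i : Fin n) :
    ph θ x i = Complex.exp ((θ i : ℂ) * Complex.I) * x i := by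
  simp [ph, rotation_apply, Circle.coe_exp]

/-- permutation of the coordinates -/
noncomputable def pe (π : Equiv.Perm (Fin n)) : E n ≃ₗᵢ[ℝ] E n :=
  LinearIsometryEquiv.piLpCongrLeft 2 ℝ ℂ π

lemma pe_apply (π : Equiv.Perm (Fin n)) (x : E n) (i : Fin n) : pe π x i = x (π.symm i) := by
  simp [pe, LinearIsometryEquiv.piLpCongrLeft_apply]

lemma integral_smap (U : E n ≃ₗᵢ[ℝ] E n) {g : S n → ℂ} (hg : Continuous g) :
    ∫ u, g (smap U u) ∂(sig n) = ∫ u, g u ∂(sig n) := by
  conv_rhs => rw [← sig_map U]
  rw [integral_map (smap_continuous U).measurable.aemeasurable hg.aestronglyMeasurable]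

/-- a function with a nonzero weight has integral zero -/
lemma integral_weight_zero {g : S n → ℂ} (hg : Continuous g) (i : Fin n) (w : ℤ) (hw : w ≠ 0)
    (h : ∀ (t : ℝ) (u : S n), g (smap (ph (Pi.single i t)) u) =
      Complex.exp ((w * t : ℝ) * Complex.I) * g u) :
    ∫ u, g u ∂(sig n) = 0 := by
  have h1 := integral_smap (ph (Pi.single i (Real.pi / w))) hg
  simp only [h] at h1
  have hw' : (w : ℝ) ≠ 0 := by exact_mod_cast hw
  have e : (w : ℝ) * (Real.pi / w) = Real.pi := by field_simp
  rw [e, integral_const_mul, Complex.exp_pi_mul_I] at h1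
  have h3 : (2 : ℂ) * (∫ u, g u ∂(sig n)) = 0 := by
    linear_combination (-1) * h1
  rcases mul_eq_zero.1 h3 with h4 | h4
  · norm_num at h4
  · exact h4

/-- the monomial `u^α` -/
noncomputable def mon (α : Fin n → ℕ) (u : S n) : ℂ := ∏ i, ((u : E n) i) ^ α i

/-- the span `E` of the functions `ū_k u^α` and `u_k ū^α`, `α ≠ 0` -/
noncomputable def Espan (n : ℕ) : Submodule ℂ (S n → ℂ) :=
  Submodule.span ℂ
    ({p | ∃ (k : Fin n) (α : Fin n → ℕ), α ≠ 0 ∧
        p = fun u : S n => (starRingEnd ℂ) ((u : E n) k) * mon α u} ∪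
      {p | ∃ (k : Fin n) (α : Fin n → ℕ), α ≠ 0 ∧
        p = fun u : S n => (u : E n) k * (starRingEnd ℂ) (mon α u)})

/-- the set `P_E` of the probability measures in the weak-* closure of `{p dσ : p ∈ E}` -/
def PE (n : ℕ) : Set (Measure (S n)) :=
  {μ | IsProbabilityMeasure μ ∧ ∀ (F : Finset C(S n, ℂ)) (ε : ℝ), 0 < ε → ∃ p ∈ Espan n,
    ∀ g ∈ F, ‖∫ u, g u ∂μ - ∫ u, g u * p u ∂(sig n)‖ < ε}

lemma continuous_coord (k : Fin n) : Continuous fun u : S n => (u : E n) k := by fun_prop

lemma continuous_mon (α : Fin n → ℕ) : Continuous (mon α : S n → ℂ) := by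
  unfold mon
  exact continuous_finsetProd _ fun i _ => (continuous_coord i).pow _

lemma mon_ph (α : Fin n → ℕ) (i : Fin n) (t : ℝ) (u : S n) :
    mon α (smap (ph (Pi.single i t)) u) = Complex.exp ((α i * t : ℝ) * Complex.I) * mon α u := by
  unfold mon
  have h1 : ∀ l, ((smap (ph (Pi.single i t)) u : S n) : E n) l =
      (if l = i then Complex.exp ((t : ℂ) * Complex.I) else 1) * (u : E n) l := by
    intro l
    show ph (Pi.single i t) u l = _
    rw [ph_apply]
    by_cases h : l = i
    · subst h; simp
    · simp [h]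
  simp only [h1, mul_pow, Finset.prod_mul_distrib]
  congr 1
  rw [Finset.prod_eq_single i]
  · rw [if_pos rfl, ← Complex.exp_nat_mul]
    congr 1
    push_cast; ring
  · intro l _ hl
    rw [if_neg hl, one_pow]
  · intro h; exact absurd (Finset.mem_univ i) h

lemma coord_ph (k i : Fin n) (t : ℝ) (u : S n) :
    ((smap (ph (Pi.single i t)) u : S n) : E n) k =
      Complex.exp (((if k = i then 1 else 0 : ℤ) * t : ℝ) * Complex.I) * (u : E n) k := by
  show ph (Pi.single i t) u k = _
  rw [ph_apply]
  by_cases h : k = i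
  · subst h; simp
  · simp [h]

lemma conj_exp_I (x : ℝ) : (starRingEnd ℂ) (Complex.exp ((x : ℂ) * Complex.I)) =
    Complex.exp ((-x : ℝ) * Complex.I) := by
  rw [← Complex.exp_conj]
  simp

lemma norm_coord_ph (k i : Fin n) (t : ℝ) (u : S n) :
    ‖((smap (ph (Pi.single i t)) u : S n) : E n) k‖ = ‖(u : E n) k‖ := by
  rw [coord_ph, norm_mul, Complex.norm_exp_ofReal_mul_I, one_mul]

section two

variable {m : ℕ}

/-- test functions `Φ(|u₁|) u₁^j` -/
noncomputable def tf (j : ℕ) (Φ : ℝ → ℝ) (u : S (m + 2)) : ℂ :=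
  ((Φ ‖(u : E (m + 2)) 0‖ : ℝ) : ℂ) * ((u : E (m + 2)) 0) ^ j

lemma continuous_tf (j : ℕ) {Φ : ℝ → ℝ} (hΦ : Continuous Φ) :
    Continuous (tf j Φ : S (m + 2) → ℂ) := by
  unfold tf
  have := continuous_coord (n := m + 2) 0
  fun_prop

lemma tf_orth (j : ℕ) {Φ : ℝ → ℝ} (hΦ : Continuous Φ)
    (h : ∀ k : Fin (m + 2), ∫ u : S (m + 2), ((Φ ‖(u : E (m + 2)) 0‖ *
      ‖(u : E (m + 2)) 0‖ ^ (2 * j) * ‖(u : E (m + 2)) k‖ ^ 2 : ℝ) : ℂ) ∂(sig (m + 2)) = 0) :
    ∀ p ∈ Espan (m + 2), Continuous p ∧ ∫ u, tf j Φ u * p u ∂(sig (m + 2)) = 0 := by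
  intro p hp
  have hnc : ∀ z : ℂ, (starRingEnd ℂ) z * z = ((‖z‖ ^ 2 : ℝ) : ℂ) := by
    intro z
    rw [mul_comm, Complex.mul_conj, Complex.normSq_eq_norm_sq]
  have hcont := continuous_tf (m := m) j hΦ
  induction hp using Submodule.span_induction with
  | mem p hp =>
    rcases hp with ⟨k, α, hα, rfl⟩ | ⟨k, α, hα, rfl⟩
    · have hc : Continuous fun u : S (m + 2) => (starRingEnd ℂ) ((u : E (m + 2)) k) * mon α u :=
        (Complex.continuous_conj.comp (continuous_coord k)).mul (continuous_mon α)
      refine ⟨hc, ?_⟩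
      by_cases hw : ∀ i : Fin (m + 2), ((j : ℤ) * (if (0 : Fin (m + 2)) = i then 1 else 0) -
          (if k = i then 1 else 0) + α i) = 0
      · -- then `j = 0`, `α = e_k`
        have hk := hw k
        rw [if_pos rfl] at hk
        have hj : j = 0 := by
          by_contra hj
          apply hα
          funext i
          have hi := hw i
          have h0 := hw 0
          rw [if_pos rfl] at h0
          show α i = 0
          by_cases h1 : k = 0
          · subst h1
            rw [if_pos rfl] at h0
            by_cases h2 : (0 : Fin (m + 2)) = i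
            · subst h2
              rw [if_pos rfl] at hi
              omega
            · rw [if_neg h2] at hi
              omega
          · rw [if_neg h1] at h0
            omega
        subst hj
        have hαe : ∀ i, α i = if k = i then 1 else 0 := by
          intro i
          have hi := hw i
          by_cases h1 : k = i
          · subst h1; simp at hi ⊢; omega
          · simp [h1] at hi ⊢; omega
        have hmon : ∀ u : S (m + 2), mon α u = (u : E (m + 2)) k := by
          intro u
          unfold mon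
          simp only [hαe]
          rw [Finset.prod_eq_single k]
          · simp
          · intro l _ hl; rw [if_neg (Ne.symm hl), pow_zero]
          · intro h; exact absurd (Finset.mem_univ k) h
        rw [← h k]
        congr 1
        funext u
        show tf 0 Φ u * ((starRingEnd ℂ) ((u : E (m + 2)) k) * mon α u) = _
        rw [hmon, hnc]
        simp [tf]
      · push Not at hw
        obtain ⟨i, hi⟩ := hw
        refine integral_weight_zero (hcont.mul hc) i _ hi ?_
        intro t u
        simp only [tf]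
        rw [mon_ph, norm_coord_ph, coord_ph, coord_ph, map_mul, conj_exp_I, mul_pow,
          ← Complex.exp_nat_mul]
        have e : Complex.exp ((((((j : ℤ) * (if (0 : Fin (m + 2)) = i then 1 else 0) -
          (if k = i then 1 else 0) + α i : ℤ)) : ℝ) * t : ℝ) * Complex.I) =
          Complex.exp ((j : ℂ) * ((((if (0 : Fin (m + 2)) = i then 1 else 0 : ℤ) : ℝ) * t : ℝ) * Complex.I)) *
          Complex.exp ((-(((if k = i then 1 else 0 : ℤ) : ℝ) * t) : ℝ) * Complex.I) *
          Complex.exp ((α i * t : ℝ) * Complex.I) := by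
          rw [← Complex.exp_add, ← Complex.exp_add]
          congr 1
          push_cast
          ring
        rw [e]
        ring
    · have hc : Continuous fun u : S (m + 2) => (u : E (m + 2)) k * (starRingEnd ℂ) (mon α u) :=
        (continuous_coord k).mul (Complex.continuous_conj.comp (continuous_mon α))
      refine ⟨hc, ?_⟩
      by_cases hw : ∀ i : Fin (m + 2), ((j : ℤ) * (if (0 : Fin (m + 2)) = i then 1 else 0) +
          (if k = i then 1 else 0) - α i) = 0
      · have hmon : ∀ u : S (m + 2), mon α u = (u : E (m + 2)) 0 ^ j * (u : E (m + 2)) k := by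
          intro u
          unfold mon
          have h1 : ∀ i, α i = (if (0 : Fin (m + 2)) = i then j else 0) + (if k = i then 1 else 0) := by
            intro i
            have := hw i
            split_ifs at this ⊢ <;> omega
          simp only [h1, pow_add, Finset.prod_mul_distrib]
          congr 1
          · rw [Finset.prod_eq_single 0]
            · simp
            · intro l _ hl; rw [if_neg (Ne.symm hl), pow_zero]
            · intro h; exact absurd (Finset.mem_univ 0) h
          · rw [Finset.prod_eq_single k]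
            · simp
            · intro l _ hl; rw [if_neg (Ne.symm hl), pow_zero]
            · intro h; exact absurd (Finset.mem_univ k) h
        rw [← h k]
        congr 1
        funext u
        show tf j Φ u * ((u : E (m + 2)) k * (starRingEnd ℂ) (mon α u)) = _
        rw [hmon]
        simp only [tf, map_mul, map_pow]
        have e1 := hnc ((u : E (m + 2)) 0)
        have e2 := hnc ((u : E (m + 2)) k)
        calc ((Φ ‖(u : E (m + 2)) 0‖ : ℝ) : ℂ) * (u : E (m + 2)) 0 ^ j * ((u : E (m + 2)) k *
              ((starRingEnd ℂ) ((u : E (m + 2)) 0) ^ j * (starRingEnd ℂ) ((u : E (m + 2)) k)))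
            = ((Φ ‖(u : E (m + 2)) 0‖ : ℝ) : ℂ) *
              ((starRingEnd ℂ) ((u : E (m + 2)) 0) * (u : E (m + 2)) 0) ^ j *
              ((starRingEnd ℂ) ((u : E (m + 2)) k) * (u : E (m + 2)) k) := by
                rw [mul_pow]; ring
          _ = _ := by rw [e1, e2]; push_cast; ring
      · push Not at hw
        obtain ⟨i, hi⟩ := hw
        refine integral_weight_zero (hcont.mul hc) i _ hi ?_
        intro t u
        simp only [tf]
        rw [mon_ph, norm_coord_ph, coord_ph, coord_ph, map_mul, conj_exp_I, mul_pow,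
          ← Complex.exp_nat_mul]
        have e : Complex.exp ((((((j : ℤ) * (if (0 : Fin (m + 2)) = i then 1 else 0) +
          (if k = i then 1 else 0) - α i : ℤ)) : ℝ) * t : ℝ) * Complex.I) =
          Complex.exp ((j : ℂ) * ((((if (0 : Fin (m + 2)) = i then 1 else 0 : ℤ) : ℝ) * t : ℝ) * Complex.I)) *
          Complex.exp (((((if k = i then 1 else 0 : ℤ) : ℝ) * t) : ℝ) * Complex.I) *
          Complex.exp ((-(α i * t) : ℝ) * Complex.I) := by
          rw [← Complex.exp_add, ← Complex.exp_add]
          congr 1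
          push_cast
          ring
        rw [e]
        ring
  | zero =>
    refine ⟨continuous_const, ?_⟩
    simp
  | add p q _ _ hp hq =>
    refine ⟨hp.1.add hq.1, ?_⟩
    have h1 : Integrable (fun u => tf j Φ u * p u) (sig (m + 2)) :=
      (hcont.mul hp.1).integrable_of_hasCompactSupport (HasCompactSupport.of_compactSpace _)
    have h2 : Integrable (fun u => tf j Φ u * q u) (sig (m + 2)) :=
      (hcont.mul hq.1).integrable_of_hasCompactSupport (HasCompactSupport.of_compactSpace _)
    simp only [Pi.add_apply, mul_add]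
    rw [integral_add h1 h2, hp.2, hq.2, add_zero]
  | smul c p _ hp =>
    refine ⟨hp.1.const_smul c, ?_⟩
    have : ∀ u, tf j Φ u * (c • p) u = c * (tf j Φ u * p u) := by
      intro u; simp only [Pi.smul_apply, smul_eq_mul]; ring
    simp only [this]
    rw [integral_const_mul, hp.2, mul_zero]

end two

end Pool.Agent.R231.SN
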