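import Mathlib
import Pool.Agent.R231.SN.Sph

set_option autoImplicit false

open Filter Topology Set Metric MeasureTheory
open scoped ENNReal Pointwise

namespace Pool.Agent.R231.SN

variable {m : ℕ}

/-- the modulus of the first coordinate -/
noncomputable def r0 (u : S (m + 2)) : ℝ := ‖(u : E (m + 2)) 0‖

lemma continuous_r0 : Continuous (r0 : S (m + 2) → ℝ) := (continuous_coord 0).norm

lemma norm_sq_sum (u : S (m + 2)) : ∑ k, ‖(u : E (m + 2)) k‖ ^ 2 = 1 := by
  have h : ‖(u : E (m + 2))‖ = 1 := norm_eq_of_mem_sphere u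
  rw [← EuclideanSpace.norm_sq_eq, h, one_pow]

lemma coord_le_one (u : S (m + 2)) (k : Fin (m + 2)) : ‖(u : E (m + 2)) k‖ ≤ 1 := by
  have h := norm_sq_sum u
  have h1 : ‖(u : E (m + 2)) k‖ ^ 2 ≤ 1 := by
    rw [← h]
    exact Finset.single_le_sum (f := fun k => ‖(u : E (m + 2)) k‖ ^ 2) (fun _ _ => sq_nonneg _)
      (Finset.mem_univ k)
  nlinarith [norm_nonneg ((u : E (m + 2)) k)]

lemma r0_nonneg (u : S (m + 2)) : 0 ≤ r0 u := norm_nonneg _

lemma r0_le_one (u : S (m + 2)) : r0 u ≤ 1 := coord_le_one u 0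

lemma integrable_cont {F : Type*} [NormedAddCommGroup F] {g : S (m + 2) → F} (hg : Continuous g)
    (μ : Measure (S (m + 2))) [IsFiniteMeasure μ] : Integrable g μ :=
  hg.integrable_of_hasCompactSupport (HasCompactSupport.of_compactSpace _)

/-- moments of functions of `|u₁|` under the surface measure -/
noncomputable def A (m j : ℕ) (ψ : ℝ → ℝ) : ℝ := ∫ u : S (m + 2), ψ (r0 u) * r0 u ^ j ∂(sig (m + 2))

lemma integral_smap_real (U : E (m + 2) ≃ₗᵢ[ℝ] E (m + 2)) {g : S (m + 2) → ℝ} (hg : Continuous g) :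
    ∫ u, g (smap U u) ∂(sig (m + 2)) = ∫ u, g u ∂(sig (m + 2)) := by
  conv_rhs => rw [← sig_map U]
  rw [integral_map (smap_continuous U).measurable.aemeasurable hg.aestronglyMeasurable]

/-- symmetry: the moment conditions imply the orthogonality conditions -/
lemma sym_cond {Φ : ℝ → ℝ} (hΦ : Continuous Φ) (j : ℕ) (h1 : A m (2 * j) Φ = 0)
    (h2 : A m (2 * j + 2) Φ = 0) (k : Fin (m + 2)) :
    ∫ u : S (m + 2), (Φ (r0 u) * r0 u ^ (2 * j) * ‖(u : E (m + 2)) k‖ ^ 2) ∂(sig (m + 2)) = 0 := by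
  have hr := continuous_r0 (m := m)
  set I : Fin (m + 2) → ℝ := fun k =>
    ∫ u : S (m + 2), (Φ (r0 u) * r0 u ^ (2 * j) * ‖(u : E (m + 2)) k‖ ^ 2) ∂(sig (m + 2)) with hI
  have hc : ∀ k : Fin (m + 2), Continuous
      (fun u : S (m + 2) => Φ (r0 u) * r0 u ^ (2 * j) * ‖(u : E (m + 2)) k‖ ^ 2) := by
    intro k
    have := continuous_coord (n := m + 2) k
    fun_prop
  have hI0 : I 0 = 0 := by
    rw [← h2]
    simp only [hI, A]
    congr 1
    funext u
    rw [show ‖(u : E (m + 2)) 0‖ = r0 u from rfl]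
    ring
  have hIk : ∀ k : Fin (m + 2), k ≠ 0 → I k = I 1 := by
    intro k hk
    have h3 := integral_smap_real (pe (Equiv.swap 1 k)) (hc 1)
    have h4 : ∀ u : S (m + 2), r0 (smap (pe (Equiv.swap 1 k)) u) = r0 u := by
      intro u
      show ‖pe (Equiv.swap 1 k) (u : E (m + 2)) 0‖ = _
      rw [pe_apply, Equiv.symm_swap, Equiv.swap_apply_of_ne_of_ne (by simp) (Ne.symm hk)]
      rfl
    have h5 : ∀ u : S (m + 2), ((smap (pe (Equiv.swap 1 k)) u : S (m + 2)) : E (m + 2)) 1 =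
        (u : E (m + 2)) k := by
      intro u
      show pe (Equiv.swap 1 k) (u : E (m + 2)) 1 = _
      rw [pe_apply, Equiv.symm_swap, Equiv.swap_apply_left]
    simp only [h4, h5] at h3
    exact h3
  have hsum : ∑ k, I k = 0 := by
    rw [← h1]
    simp only [hI, A]
    rw [← integral_finsetSum _ fun k _ => integrable_cont (hc k) _]
    congr 1
    funext u
    rw [← Finset.mul_sum, norm_sq_sum, mul_one]
  have hsum' : ∑ k, I k = (m + 1 : ℕ) * I 1 := by
    rw [Fin.sum_univ_succ, hI0, zero_add, Finset.sum_congr rfl (fun i _ => hIk i.succ (Fin.succ_ne_zero i))]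
    simp
  have h6 : I 1 = 0 := by
    rw [hsum] at hsum'
    have : ((m + 1 : ℕ) : ℝ) ≠ 0 := by positivity
    rcases mul_eq_zero.1 hsum'.symm with h | h
    · exact absurd h this
    · exact h
  by_cases hk : k = 0
  · subst hk; exact hI0
  · exact (hIk k hk).trans h6

lemma PE_test {μ : Measure (S (m + 2))} (hμ : μ ∈ PE (m + 2)) {Φ : ℝ → ℝ} (hΦ : Continuous Φ) (j : ℕ)
    (h1 : A m (2 * j) Φ = 0) (h2 : A m (2 * j + 2) Φ = 0) : ∫ u, tf j Φ u ∂μ = 0 := by
  have horth := tf_orth (m := m) j hΦ (by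
    intro k
    have h3 := sym_cond hΦ j h1 h2 k
    have h4 := integral_ofReal (𝕜 := ℂ) (μ := sig (m + 2))
      (f := fun u : S (m + 2) => Φ (r0 u) * r0 u ^ (2 * j) * ‖(u : E (m + 2)) k‖ ^ 2)
    rw [h3] at h4
    exact h4.trans Complex.ofReal_zero)
  obtain ⟨_, hw⟩ := hμ
  have h3 : ‖∫ u, tf j Φ u ∂μ‖ ≤ 0 := by
    refine le_of_forall_pos_le_add fun ε hε => ?_
    obtain ⟨p, hp, h4⟩ := hw {⟨tf j Φ, continuous_tf j hΦ⟩} ε hε
    have h5 := h4 _ (Finset.mem_singleton_self _)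
    simp only [ContinuousMap.coe_mk] at h5
    rw [(horth p hp).2, sub_zero] at h5
    linarith
  exact norm_le_zero_iff.1 h3

/-- the phase of the first coordinate -/
noncomputable def e1 (u : S (m + 2)) : ℂ := (u : E (m + 2)) 0 / (r0 u : ℂ)

lemma measurable_e1 : Measurable (e1 : S (m + 2) → ℂ) := by
  have h : (e1 : S (m + 2) → ℂ) = fun u : S (m + 2) => (u : E (m + 2)) 0 * ((r0 u)⁻¹ : ℝ) := by
    funext u
    unfold e1
    rw [div_eq_mul_inv, Complex.ofReal_inv]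
  rw [h]
  have h1 : Measurable fun u : S (m + 2) => (u : E (m + 2)) 0 := (continuous_coord 0).measurable
  have h2 : Measurable fun u : S (m + 2) => (r0 u)⁻¹ := continuous_r0.measurable.inv
  exact h1.mul (Complex.measurable_ofReal.comp h2)

lemma norm_e1_le (u : S (m + 2)) : ‖e1 u‖ ≤ 1 := by
  unfold e1
  rw [norm_div, Complex.norm_real, Real.norm_of_nonneg (r0_nonneg u)]
  exact div_self_le_one _

/-- `J_j(ψ) = ∫ ψ(|u₁|) (u₁/|u₁|)^j dμ` -/
noncomputable def J (μ : Measure (S (m + 2))) (j : ℕ) (ψ : ℝ → ℝ) : ℂ :=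
  ∫ u, ((ψ (r0 u) : ℝ) : ℂ) * e1 u ^ j ∂μ

lemma integrable_J (μ : Measure (S (m + 2))) [IsFiniteMeasure μ] (j : ℕ) {ψ : ℝ → ℝ}
    (hψ : Continuous ψ) : Integrable (fun u => ((ψ (r0 u) : ℝ) : ℂ) * e1 u ^ j) μ := by
  have h1 : Integrable (fun u : S (m + 2) => ((ψ (r0 u) : ℝ) : ℂ)) μ := by
    apply integrable_cont
    have := continuous_r0 (m := m)
    fun_prop
  refine h1.mul_bdd (c := 1) (measurable_e1.pow_const j).aestronglyMeasurable ?_
  exact Filter.Eventually.of_forall fun u => by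
    rw [norm_pow]
    exact pow_le_one₀ (norm_nonneg _) (norm_e1_le u)

lemma norm_J_le (μ : Measure (S (m + 2))) [IsProbabilityMeasure μ] (j : ℕ) {ψ : ℝ → ℝ}
    (hψ1 : ∀ t, |ψ t| ≤ 1) : ‖J μ j ψ‖ ≤ 1 := by
  unfold J
  have := norm_integral_le_of_norm_le_const (μ := μ) (f := fun u => ((ψ (r0 u) : ℝ) : ℂ) * e1 u ^ j)
    (C := 1) (Filter.Eventually.of_forall fun u => by
      rw [norm_mul, norm_pow, Complex.norm_real, Real.norm_eq_abs]
      have h1 := pow_le_one₀ (n := j) (norm_nonneg (e1 u)) (norm_e1_le u)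
      have h2 := hψ1 (r0 u)
      calc |ψ (r0 u)| * ‖e1 u‖ ^ j ≤ 1 * 1 := by gcongr
        _ = 1 := one_mul 1)
  simpa using this

lemma int3 {𝕜 : Type*} [RCLike 𝕜] (μ : Measure (S (m + 2))) {f g h : S (m + 2) → 𝕜}
    (i1 : Integrable f μ) (i2 : Integrable g μ) (i3 : Integrable h μ) (α β : 𝕜) :
    ∫ u, (f u - α * g u - β * h u) ∂μ = ∫ u, f u ∂μ - α * ∫ u, g u ∂μ - β * ∫ u, h u ∂μ := by
  have h1 : ∫ u, (f u - α * g u - β * h u) ∂μ =
      ∫ u, (f u - α * g u) ∂μ - ∫ u, β * h u ∂μ :=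
    integral_sub (i1.sub (i2.const_mul α)) (i3.const_mul β)
  have h2 : ∫ u, (f u - α * g u) ∂μ = ∫ u, f u ∂μ - ∫ u, α * g u ∂μ :=
    integral_sub i1 (i2.const_mul α)
  rw [h1, h2, integral_const_mul, integral_const_mul]

lemma A_linear {m j : ℕ} {f g h : ℝ → ℝ} (hf : Continuous f) (hg : Continuous g) (hh : Continuous h)
    (α β : ℝ) : A m j (fun t => f t - α * g t - β * h t) = A m j f - α * A m j g - β * A m j h := by
  have hr := continuous_r0 (m := m)
  unfold A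
  have i1 : Integrable (fun u : S (m + 2) => f (r0 u) * r0 u ^ j) (sig (m + 2)) :=
    integrable_cont (by fun_prop) _
  have i2 : Integrable (fun u : S (m + 2) => g (r0 u) * r0 u ^ j) (sig (m + 2)) :=
    integrable_cont (by fun_prop) _
  have i3 : Integrable (fun u : S (m + 2) => h (r0 u) * r0 u ^ j) (sig (m + 2)) :=
    integrable_cont (by fun_prop) _
  rw [← int3 _ i1 i2 i3]
  congr 1
  funext u
  ring

/-- the main estimate -/
lemma main_est {μ : Measure (S (m + 2))} (hμ : μ ∈ PE (m + 2)) (j : ℕ) {r κ₁ κ₂ : ℝ → ℝ}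
    (hr : Continuous r) (hk1 : Continuous κ₁) (hk2 : Continuous κ₂) (hr0 : ∀ t, 0 ≤ r t)
    (h10 : ∀ t, 0 ≤ κ₁ t) (h20 : ∀ t, 0 ≤ κ₂ t) (h11 : ∀ t, κ₁ t ≤ 1) (h21 : ∀ t, κ₂ t ≤ 1)
    {t0 t1 t2 t3 : ℝ} (ht0 : 0 < t0) (ht01 : t0 ≤ t1) (ht12 : t1 < t2) (ht23 : t2 < t3)
    (s1 : ∀ t, κ₁ t ≠ 0 → t1 ≤ t ∧ t ≤ t2) (s2 : ∀ t, κ₂ t ≠ 0 → t3 ≤ t)
    (hrj : ∀ t, t < t0 → j ≠ 0 → r t = 0) (ha1 : 0 < A m j κ₁) (ha2 : 0 < A m j κ₂) :
    ‖J μ j r‖ ≤ A m j r / (t3 ^ 2 - t2 ^ 2) * (1 / A m j κ₁ + 1 / A m j κ₂) := by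
  have hprob := hμ.1
  have hrc := continuous_r0 (m := m)
  set a1 := A m j κ₁ with ha1d
  set a2 := A m j κ₂ with ha2d
  set b1 := A m (j + 2) κ₁ with hb1d
  set b2 := A m (j + 2) κ₂ with hb2d
  set ar := A m j r with hard
  set br := A m (j + 2) r with hbrd
  have hmono : ∀ {f g : ℝ → ℝ} {p q : ℕ}, Continuous f → Continuous g →
      (∀ t, 0 ≤ t → t ≤ 1 → f t * t ^ p ≤ g t * t ^ q) → A m p f ≤ A m q g := by
    intro f g p q hf hg h
    unfold A
    apply integral_mono (integrable_cont (by fun_prop) _) (integrable_cont (by fun_prop) _)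
    intro u
    exact h _ (r0_nonneg u) (r0_le_one u)
  have hcm : ∀ (c : ℝ) (f : ℝ → ℝ) (p : ℕ), A m p (fun t => c * f t) = c * A m p f := by
    intro c f p
    unfold A
    rw [← integral_const_mul]
    congr 1
    funext u; ring
  have hb1 : b1 ≤ t2 ^ 2 * a1 := by
    rw [hb1d, ha1d, ← hcm]
    apply hmono hk1 (by fun_prop)
    intro t ht ht'
    by_cases h : κ₁ t = 0
    · rw [h]; simp
    · have := (s1 t h).2
      have h1 : t ^ 2 ≤ t2 ^ 2 := by gcongr
      have h2 := h10 t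
      calc κ₁ t * t ^ (j + 2) = (κ₁ t * t ^ j) * t ^ 2 := by ring
        _ ≤ (κ₁ t * t ^ j) * t2 ^ 2 := by gcongr
        _ = _ := by ring
  have hb1' : 0 ≤ b1 := by
    have h := hmono (f := fun _ => 0) (g := κ₁) (p := 0) (q := j + 2) continuous_const hk1 (by
      intro t ht _
      have := h10 t
      simp only [zero_mul]
      positivity)
    have h0 : A m 0 (fun _ => 0) = 0 := by simp [A]
    rwa [h0] at h
  have hb2 : t3 ^ 2 * a2 ≤ b2 := by
    rw [hb2d, ha2d, ← hcm]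
    apply hmono (by fun_prop) hk2
    intro t ht ht'
    by_cases h : κ₂ t = 0
    · rw [h]; simp
    · have := s2 t h
      have h30 : 0 ≤ t3 := by linarith
      have h1 : t3 ^ 2 ≤ t ^ 2 := by gcongr
      have h2 := h20 t
      calc t3 ^ 2 * κ₂ t * t ^ j = (κ₂ t * t ^ j) * t3 ^ 2 := by ring
        _ ≤ (κ₂ t * t ^ j) * t ^ 2 := by gcongr
        _ = _ := by ring
  have hle : ∀ {f : ℝ → ℝ}, Continuous f → (∀ t, 0 ≤ f t) → A m (j + 2) f ≤ A m j f := by
    intro f hf hf0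
    apply hmono hf hf
    intro t ht ht1
    have h1 : t ^ 2 ≤ 1 := pow_le_one₀ ht ht1
    have h2 := hf0 t
    calc f t * t ^ (j + 2) = (f t * t ^ j) * t ^ 2 := by ring
      _ ≤ (f t * t ^ j) * 1 := by gcongr
      _ = _ := by ring
  have hb2' : b2 ≤ a2 := hle hk2 h20
  have hb1'' : b1 ≤ a1 := hle hk1 h10
  have hbr : br ≤ ar := hle hr hr0
  have hbr0 : 0 ≤ br := by
    have h := hmono (f := fun _ => 0) (g := r) (p := 0) (q := j + 2) continuous_const hr (by
      intro t ht _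
      have := hr0 t
      simp only [zero_mul]
      positivity)
    have h0 : A m 0 (fun _ => 0) = 0 := by simp [A]
    rwa [h0] at h
  have har0 : 0 ≤ ar := hbr0.trans hbr
  have hgap : 0 < t3 ^ 2 - t2 ^ 2 := by nlinarith
  have hdet : a1 * a2 * (t3 ^ 2 - t2 ^ 2) ≤ a1 * b2 - a2 * b1 := by
    have h1 := mul_le_mul_of_nonneg_left hb2 ha1.le
    have h2 := mul_le_mul_of_nonneg_left hb1 ha2.le
    have h3 : a1 * a2 * (t3 ^ 2 - t2 ^ 2) = a1 * (t3 ^ 2 * a2) - a2 * (t2 ^ 2 * a1) := by ring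
    linarith
  set det := a1 * b2 - a2 * b1 with hdetd
  have hdet0 : 0 < a1 * a2 * (t3 ^ 2 - t2 ^ 2) := by positivity
  have hdetp : 0 < det := hdet0.trans_le hdet
  set α := (ar * b2 - a2 * br) / det with hα
  set β := (a1 * br - ar * b1) / det with hβ
  have hαb : |α| ≤ ar / (t3 ^ 2 - t2 ^ 2) * (1 / a1) := by
    rw [hα, abs_div, abs_of_pos hdetp]
    have h1 : |ar * b2 - a2 * br| ≤ ar * a2 := by
      have h30 : 0 ≤ b2 := le_trans (by positivity) hb2
      have p1 := mul_le_mul_of_nonneg_left hb2' har0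
      have p2 := mul_nonneg har0 h30
      have p3 := mul_le_mul_of_nonneg_left hbr ha2.le
      have p4 := mul_nonneg ha2.le hbr0
      have p5 := mul_comm ar a2
      rw [abs_le]
      constructor <;> linarith
    calc |ar * b2 - a2 * br| / det ≤ (ar * a2) / (a1 * a2 * (t3 ^ 2 - t2 ^ 2)) := by gcongr
      _ = ar / (t3 ^ 2 - t2 ^ 2) * (1 / a1) := by field_simp
  have hβb : |β| ≤ ar / (t3 ^ 2 - t2 ^ 2) * (1 / a2) := by
    rw [hβ, abs_div, abs_of_pos hdetp]
    have h1 : |a1 * br - ar * b1| ≤ ar * a1 := by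
      have p1 := mul_le_mul_of_nonneg_left hb1'' har0
      have p2 := mul_nonneg har0 hb1'
      have p3 := mul_le_mul_of_nonneg_left hbr ha1.le
      have p4 := mul_nonneg ha1.le hbr0
      have p5 := mul_comm ar a1
      rw [abs_le]
      constructor <;> linarith
    calc |a1 * br - ar * b1| / det ≤ (ar * a1) / (a1 * a2 * (t3 ^ 2 - t2 ^ 2)) := by gcongr
      _ = ar / (t3 ^ 2 - t2 ^ 2) * (1 / a2) := by field_simp
  -- the test function
  set ψ : ℝ → ℝ := fun t => r t - α * κ₁ t - β * κ₂ t with hψ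
  have hψc : Continuous ψ := by fun_prop
  set Φ : ℝ → ℝ := fun t => ψ t / (max t t0) ^ j with hΦ
  have hmax : ∀ t : ℝ, 0 < max t t0 := fun t => lt_of_lt_of_le ht0 (le_max_right _ _)
  have hΦc : Continuous Φ := by
    have hmc : Continuous (fun t : ℝ => max t t0) := by fun_prop
    apply hψc.div (hmc.pow j)
    intro t
    exact (pow_pos (hmax t) j).ne'
  have hΦψ : ∀ t, Φ t * t ^ j = ψ t := by
    intro t
    by_cases h : t < t0 ∧ j ≠ 0
    · have h1 : ψ t = 0 := by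
        have k1 : κ₁ t = 0 := by
          by_contra h2
          have := (s1 t h2).1
          linarith [h.1]
        have k2 : κ₂ t = 0 := by
          by_contra h2
          have := s2 t h2
          linarith [h.1]
        simp only [hψ]
        rw [hrj t h.1 h.2, k1, k2]; ring
      simp only [hΦ]
      rw [h1]; simp
    · simp only [hΦ]
      by_cases hj : j = 0
      · subst hj; simp
      · have h2 : t0 ≤ t := by
          by_contra h3
          exact h ⟨not_le.1 h3, hj⟩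
        rw [max_eq_left h2]
        have : t ^ j ≠ 0 := (pow_pos (ht0.trans_le h2) j).ne'
        field_simp
  have c1 : A m (2 * j) Φ = 0 := by
    have e : A m (2 * j) Φ = A m j ψ := by
      unfold A
      congr 1
      funext u
      rw [← hΦψ]; ring
    rw [e, hψ, A_linear hr hk1 hk2, ← ha1d, ← ha2d, ← hard, hα, hβ]
    field_simp
    rw [hdetd]; ring
  have c2 : A m (2 * j + 2) Φ = 0 := by
    have e : A m (2 * j + 2) Φ = A m (j + 2) ψ := by
      unfold A
      congr 1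
      funext u
      rw [← hΦψ]; ring
    rw [e, hψ, A_linear hr hk1 hk2, ← hb1d, ← hb2d, ← hbrd, hα, hβ]
    field_simp
    rw [hdetd]; ring
  have h0 := PE_test hμ hΦc j c1 c2
  have htf : ∀ u : S (m + 2), tf j Φ u = ((ψ (r0 u) : ℝ) : ℂ) * e1 u ^ j := by
    intro u
    unfold tf e1
    rw [show ‖(u : E (m + 2)) 0‖ = r0 u from rfl]
    by_cases h : r0 u = 0
    · have hu : (u : E (m + 2)) 0 = 0 := norm_eq_zero.1 h
      by_cases hj : j = 0
      · subst hj
        have := hΦψ (r0 u)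
        rw [pow_zero, mul_one] at this
        simp [this]
      · rw [hu]; simp [hj]
    · rw [← hΦψ, div_pow]
      have h' : ((r0 u : ℝ) : ℂ) ^ j ≠ 0 := pow_ne_zero _ (by exact_mod_cast h)
      push_cast
      field_simp
  have h1 : J μ j r - α * J μ j κ₁ - β * J μ j κ₂ = 0 := by
    rw [← h0]
    simp only [htf]
    unfold J
    rw [← int3 μ (integrable_J μ j hr) (integrable_J μ j hk1) (integrable_J μ j hk2)]
    congr 1
    funext u
    simp only [hψ]
    push_cast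
    ring
  have h2 : J μ j r = α * J μ j κ₁ + β * J μ j κ₂ := by linear_combination h1
  have n1 := norm_J_le μ j (ψ := κ₁) (fun t => by rw [abs_of_nonneg (h10 t)]; exact h11 t)
  have n2 := norm_J_le μ j (ψ := κ₂) (fun t => by rw [abs_of_nonneg (h20 t)]; exact h21 t)
  rw [h2]
  calc ‖(α : ℂ) * J μ j κ₁ + β * J μ j κ₂‖ ≤ |α| * ‖J μ j κ₁‖ + |β| * ‖J μ j κ₂‖ := by
        refine (norm_add_le _ _).trans ?_
        rw [norm_mul, norm_mul, Complex.norm_real, Complex.norm_real, Real.norm_eq_abs,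
          Real.norm_eq_abs]
    _ ≤ (ar / (t3 ^ 2 - t2 ^ 2) * (1 / a1)) * 1 + (ar / (t3 ^ 2 - t2 ^ 2) * (1 / a2)) * 1 := by
        gcongr
    _ = _ := by ring

end Pool.Agent.R231.SN
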