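import Mathlib
import Pool.Agent.R231.SN.Est

set_option autoImplicit false

open Filter Topology Set Metric MeasureTheory
open scoped ENNReal Pointwise

namespace Pool.Agent.R231.SN

variable {m : ℕ}

/-- the tent function on `(a, b)` -/
noncomputable def bmp (a b t : ℝ) : ℝ := max 0 (min (t - a) (b - t))

lemma bmp_cont (a b : ℝ) : Continuous (bmp a b) := by unfold bmp; fun_prop

lemma bmp_nonneg (a b t : ℝ) : 0 ≤ bmp a b t := le_max_left _ _

lemma bmp_ne {a b t : ℝ} (h : bmp a b t ≠ 0) : a < t ∧ t < b := by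
  unfold bmp at h
  by_contra hc
  apply h
  apply max_eq_left
  rw [min_le_iff]
  by_cases h1 : a < t
  · right
    have : b ≤ t := by
      by_contra h2
      exact hc ⟨h1, not_le.1 h2⟩
    linarith
  · left; linarith

lemma bmp_pos {a b t : ℝ} (h1 : a < t) (h2 : t < b) : 0 < bmp a b t := by
  unfold bmp
  apply lt_max_of_lt_right
  rw [lt_min_iff]
  constructor <;> linarith

lemma bmp_le_one {a b t : ℝ} (h : b - a ≤ 1) : bmp a b t ≤ 1 := by
  unfold bmp
  apply max_le zero_le_one
  rw [min_le_iff]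
  by_cases h1 : t - a ≤ 1
  · left; exact h1
  · right; linarith

/-- a point of the sphere with given modulus of the first coordinate -/
lemma exists_point {c : ℝ} (h0 : 0 < c) (h1 : c < 1) : ∃ u : S (m + 2), r0 u = c := by
  have hs : 0 ≤ 1 - c ^ 2 := by nlinarith
  set v : E (m + 2) := EuclideanSpace.single 0 (c : ℂ) +
    EuclideanSpace.single 1 ((Real.sqrt (1 - c ^ 2) : ℝ) : ℂ) with hv
  have hv0 : v 0 = (c : ℂ) := by
    simp [hv]
  have hv1 : v 1 = ((Real.sqrt (1 - c ^ 2) : ℝ) : ℂ) := by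
    simp [hv]
  have hvk : ∀ k : Fin m, v k.succ.succ = 0 := by
    intro k
    have e1 : (k.succ.succ : Fin (m + 2)) ≠ 0 := Fin.succ_ne_zero _
    have e2 : (k.succ.succ : Fin (m + 2)) ≠ 1 := by
      rw [← Fin.succ_zero_eq_one]
      intro h
      exact Fin.succ_ne_zero _ (Fin.succ_injective _ h)
    simp [hv, e1, e2]
  have hn : ‖v‖ ^ 2 = 1 := by
    rw [EuclideanSpace.norm_sq_eq, Fin.sum_univ_succ, Fin.sum_univ_succ]
    simp only [hvk]
    rw [hv0, show v (Fin.succ 0) = v 1 from rfl, hv1, Complex.norm_real, Complex.norm_real,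
      Real.norm_of_nonneg h0.le, Real.norm_of_nonneg (Real.sqrt_nonneg _), Real.sq_sqrt hs]
    simp
  have hn' : ‖v‖ = 1 := by
    have := norm_nonneg v
    nlinarith
  refine ⟨⟨v, by rw [mem_sphere_zero_iff_norm]; exact hn'⟩, ?_⟩
  show ‖v 0‖ = c
  rw [hv0, Complex.norm_real, Real.norm_of_nonneg h0.le]

lemma A_bmp_pos (j : ℕ) {a b : ℝ} (ha : 0 < a) (hab : a < b) (hb : b < 1) :
    0 < A m j (bmp a b) := by
  have hr := continuous_r0 (m := m)
  have hbc := bmp_cont a b
  unfold A
  obtain ⟨u, hu⟩ := exists_point (m := m) (c := (a + b) / 2) (by linarith) (by linarith)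
  apply Continuous.integral_pos_of_hasCompactSupport_nonneg_nonzero
  · fun_prop
  · exact HasCompactSupport.of_compactSpace _
  · intro u
    have := bmp_nonneg a b (r0 u)
    have := r0_nonneg u
    show 0 ≤ bmp a b (r0 u) * r0 u ^ j
    positivity
  · show bmp a b (r0 u) * r0 u ^ j ≠ 0
    rw [hu]
    have := bmp_pos (a := a) (b := b) (t := (a + b) / 2) (by linarith) (by linarith)
    have h2 : 0 < (a + b) / 2 := by linarith
    positivity

/-- `J_j(r) → 0` for tents -/
lemma J_tendsto {μ : Measure (S (m + 2))} (hμ : μ ∈ PE (m + 2)) {a b : ℝ} (ha : 0 < a)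
    (hab : a < b) (hb : b < 1) : Tendsto (fun j => J μ j (bmp a b)) atTop (𝓝 0) := by
  set t1 := b + (1 - b) / 5 with ht1
  set t2 := b + 2 * (1 - b) / 5 with ht2
  set t3 := b + 3 * (1 - b) / 5 with ht3
  set t4 := b + 4 * (1 - b) / 5 with ht4
  have hb0 : 0 < b := ha.trans hab
  have h12 : t1 < t2 := by rw [ht1, ht2]; linarith
  have h23 : t2 < t3 := by rw [ht2, ht3]; linarith
  have h34 : t3 < t4 := by rw [ht3, ht4]; linarith
  have h4 : t4 < 1 := by rw [ht4]; linarith
  have hb1 : b < t1 := by rw [ht1]; linarith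
  have ht10 : 0 < t1 := by linarith
  have ht30 : 0 < t3 := by linarith
  have hgap : 0 < t3 ^ 2 - t2 ^ 2 := by nlinarith
  have hr := continuous_r0 (m := m)
  set a1 := A m 0 (bmp t1 t2) with ha1
  set a2 := A m 0 (bmp t3 t4) with ha2
  have ha10 : 0 < a1 := A_bmp_pos 0 ht10 h12 (by linarith)
  have ha20 : 0 < a2 := A_bmp_pos 0 ht30 h34 h4
  have hlow : ∀ (j : ℕ) {p q : ℝ}, 0 < p → p ^ j * A m 0 (bmp p q) ≤ A m j (bmp p q) := by
    intro j p q hp
    have hbc := bmp_cont p q
    unfold A
    rw [← integral_const_mul]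
    apply integral_mono (integrable_cont (by fun_prop) _) (integrable_cont (by fun_prop) _)
    intro u
    show p ^ j * (bmp p q (r0 u) * r0 u ^ 0) ≤ bmp p q (r0 u) * r0 u ^ j
    rw [pow_zero, mul_one]
    by_cases h : bmp p q (r0 u) = 0
    · rw [h]; simp
    · have h1 := (bmp_ne h).1
      have h2 := bmp_nonneg p q (r0 u)
      have h3 : p ^ j ≤ r0 u ^ j := by gcongr
      rw [mul_comm]
      gcongr
  have hup : ∀ j : ℕ, A m j (bmp a b) ≤ b ^ j := by
    intro j
    have hbc := bmp_cont a b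
    unfold A
    have h1 : ∫ u : S (m + 2), bmp a b (r0 u) * r0 u ^ j ∂(sig (m + 2)) ≤
        ∫ u : S (m + 2), b ^ j ∂(sig (m + 2)) := by
      apply integral_mono (integrable_cont (by fun_prop) _) (integrable_cont continuous_const _)
      intro u
      show bmp a b (r0 u) * r0 u ^ j ≤ b ^ j
      have h0 := r0_nonneg u
      by_cases h : bmp a b (r0 u) = 0
      · rw [h, zero_mul]; positivity
      · have h1 := (bmp_ne h).2
        have h2 : bmp a b (r0 u) ≤ 1 := bmp_le_one (by linarith)
        have h3 : r0 u ^ j ≤ b ^ j := by gcongr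
        calc bmp a b (r0 u) * r0 u ^ j ≤ 1 * b ^ j := by gcongr
          _ = b ^ j := one_mul _
    simpa using h1
  have hest : ∀ j : ℕ, ‖J μ j (bmp a b)‖ ≤ (1 / (t3 ^ 2 - t2 ^ 2) * (1 / a1 + 1 / a2)) * (b / t1) ^ j := by
    intro j
    have h1 := main_est hμ j (bmp_cont a b) (bmp_cont t1 t2) (bmp_cont t3 t4) (bmp_nonneg a b)
      (bmp_nonneg t1 t2) (bmp_nonneg t3 t4) (fun t => bmp_le_one (by linarith))
      (fun t => bmp_le_one (by linarith)) ha (show a ≤ t1 by linarith) h12 h23
      (fun t ht => ⟨(bmp_ne ht).1.le, (bmp_ne ht).2.le⟩) (fun t ht => (bmp_ne ht).1.le)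
      (fun t ht _ => by
        by_contra h
        linarith [(bmp_ne h).1])
      (A_bmp_pos j ht10 h12 (by linarith)) (A_bmp_pos j ht30 h34 h4)
    refine h1.trans ?_
    have p1 := hlow j (p := t1) (q := t2) ht10
    have p2 := hlow j (p := t3) (q := t4) ht30
    have q1 : 0 < t1 ^ j * a1 := by positivity
    have p3 : t1 ^ j * a2 ≤ A m j (bmp t3 t4) := by
      refine le_trans ?_ p2
      gcongr
      linarith
    have q3 : 0 < t1 ^ j * a2 := by positivity
    have hA0 : 0 ≤ A m j (bmp a b) := (A_bmp_pos j ha hab hb).le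
    have hs1 := A_bmp_pos (m := m) j ht10 h12 (by linarith)
    have hs2 := A_bmp_pos (m := m) j ht30 h34 h4
    have hs0 : 0 ≤ 1 / A m j (bmp t1 t2) + 1 / A m j (bmp t3 t4) := by positivity
    calc A m j (bmp a b) / (t3 ^ 2 - t2 ^ 2) * (1 / A m j (bmp t1 t2) + 1 / A m j (bmp t3 t4))
        ≤ b ^ j / (t3 ^ 2 - t2 ^ 2) * (1 / (t1 ^ j * a1) + 1 / (t1 ^ j * a2)) := by
          gcongr
          exact hup j
      _ = _ := by
          rw [div_pow]
          field_simp
  have hlim : Tendsto (fun j : ℕ => (1 / (t3 ^ 2 - t2 ^ 2) * (1 / a1 + 1 / a2)) * (b / t1) ^ j) atTop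
      (𝓝 ((1 / (t3 ^ 2 - t2 ^ 2) * (1 / a1 + 1 / a2)) * 0)) := by
    apply Tendsto.const_mul
    apply tendsto_pow_atTop_nhds_zero_of_lt_one (by positivity)
    rw [div_lt_one ht10]; exact hb1
  rw [mul_zero] at hlim
  exact squeeze_zero_norm hest hlim

/-- the interior part of a real ray is null -/
lemma ray_null {μ : Measure (S (m + 2))} (hμ : μ ∈ PE (m + 2)) {a b : ℝ} (ha : 0 < a)
    (hab : a < b) (hb : b < 1) {ω : ℂ} (hω : ‖ω‖ = 1) :
    μ {u | a < r0 u ∧ r0 u < b ∧ e1 u = ω} = 0 := by
  have hprob := hμ.1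
  set r := bmp a b with hr
  have hrc : Continuous r := bmp_cont a b
  set ω' := (starRingEnd ℂ) ω with hω'
  have hωω : ω' * ω = 1 := by
    rw [hω', mul_comm, Complex.mul_conj, Complex.normSq_eq_norm_sq, hω]; simp
  have hω'n : ‖ω'‖ = 1 := by rw [hω', RCLike.norm_conj, hω]
  -- Cesàro means
  set K : ℕ → S (m + 2) → ℂ := fun N u => ((r (r0 u) : ℝ) : ℂ) *
    (((N : ℝ)⁻¹ : ℝ) • ∑ j ∈ Finset.range N, (ω' * e1 u) ^ j) with hK
  set G : S (m + 2) → ℂ := fun u => if e1 u = ω then ((r (r0 u) : ℝ) : ℂ) else 0 with hG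
  have hInt : ∀ N, ∫ u, K N u ∂μ = ((N : ℝ)⁻¹ : ℝ) • ∑ j ∈ Finset.range N, ω' ^ j * J μ j r := by
    intro N
    have e : ∀ u, K N u = ((N : ℝ)⁻¹ : ℝ) • ∑ j ∈ Finset.range N,
        ω' ^ j * (((r (r0 u) : ℝ) : ℂ) * e1 u ^ j) := by
      intro u
      simp only [hK]
      rw [mul_smul_comm, Finset.mul_sum]
      congr 1
      refine Finset.sum_congr rfl fun j _ => ?_
      rw [mul_pow]; ring
    simp only [e]
    rw [integral_smul, integral_finsetSum _ fun j _ => (integrable_J μ j hrc).const_mul _]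
    congr 1
    exact Finset.sum_congr rfl fun j _ => integral_const_mul _ _
  have hces : Tendsto (fun N : ℕ => ∫ u, K N u ∂μ) atTop (𝓝 0) := by
    simp only [hInt]
    have h1 : Tendsto (fun j => ω' ^ j * J μ j r) atTop (𝓝 0) := by
      refine squeeze_zero_norm (a := fun j => ‖J μ j r‖) (fun j => ?_) ?_
      · rw [norm_mul, norm_pow, hω'n, one_pow, one_mul]
      · have := (J_tendsto hμ ha hab hb).norm
        rwa [norm_zero] at this
    exact h1.cesaro_smul
  have hlim : Tendsto (fun N : ℕ => ∫ u, K N u ∂μ) atTop (𝓝 (∫ u, G u ∂μ)) := by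
    refine tendsto_integral_of_dominated_convergence (fun _ => 1) ?_ (integrable_const _) ?_ ?_
    · intro N
      have hm : Measurable (K N) := by
        simp only [hK]
        apply Measurable.mul
        · exact (Complex.continuous_ofReal.comp (hrc.comp continuous_r0)).measurable
        · have h1 : Measurable (fun u : S (m + 2) => ∑ j ∈ Finset.range N, (ω' * e1 u) ^ j) :=
            Finset.measurable_fun_sum _ fun j _ => ((measurable_const.mul measurable_e1).pow_const j)
          exact h1.const_smul ((N : ℝ)⁻¹)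
      exact hm.aestronglyMeasurable
    · intro N
      refine Filter.Eventually.of_forall fun u => ?_
      simp only [hK]
      rw [norm_mul, Complex.norm_real, Real.norm_of_nonneg (bmp_nonneg _ _ _), norm_smul, norm_inv,
        Real.norm_of_nonneg (Nat.cast_nonneg N)]
      have h1 : r (r0 u) ≤ 1 := bmp_le_one (by linarith)
      have h2 : ‖∑ j ∈ Finset.range N, (ω' * e1 u) ^ j‖ ≤ N := by
        refine (norm_sum_le _ _).trans ?_
        calc ∑ j ∈ Finset.range N, ‖(ω' * e1 u) ^ j‖ ≤ ∑ j ∈ Finset.range N, (1 : ℝ) := by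
              apply Finset.sum_le_sum
              intro j _
              rw [norm_pow, norm_mul, hω'n, one_mul]
              exact pow_le_one₀ (norm_nonneg _) (norm_e1_le u)
          _ = N := by simp
      have h3 : (N : ℝ)⁻¹ * ‖∑ j ∈ Finset.range N, (ω' * e1 u) ^ j‖ ≤ 1 := by
        rcases Nat.eq_zero_or_pos N with h | h
        · subst h; simp
        · rw [inv_mul_le_iff₀ (by exact_mod_cast h), mul_one]; exact h2
      have h0 : 0 ≤ r (r0 u) := bmp_nonneg _ _ _
      calc r (r0 u) * ((N : ℝ)⁻¹ * ‖∑ j ∈ Finset.range N, (ω' * e1 u) ^ j‖) ≤ 1 * 1 := by gcongr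
        _ = 1 := one_mul 1
    · refine Filter.Eventually.of_forall fun u => ?_
      simp only [hK, hG]
      by_cases hr0 : r (r0 u) = 0
      · simp [hr0]
      · have hu : 0 < r0 u := lt_trans ha (bmp_ne hr0).1
        have hn1 : ‖e1 u‖ = 1 := by
          unfold e1
          rw [norm_div, Complex.norm_real, Real.norm_of_nonneg (r0_nonneg u)]
          exact div_self hu.ne'
        by_cases he : e1 u = ω
        · rw [if_pos he, he, hωω]
          simp only [one_pow, Finset.sum_const, Finset.card_range, nsmul_eq_mul, mul_one]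
          refine tendsto_const_nhds.congr' ?_
          filter_upwards [eventually_gt_atTop 0] with N hN
          have : (N : ℂ) ≠ 0 := by exact_mod_cast hN.ne'
          rw [Complex.real_smul]
          push_cast
          field_simp
        · rw [if_neg he]
          have hz1 : ω' * e1 u ≠ 1 := by
            intro h
            apply he
            have : ω * (ω' * e1 u) = ω := by rw [h, mul_one]
            rw [← mul_assoc, mul_comm ω, hωω, one_mul] at this
            exact this
          have hz2 : ‖ω' * e1 u‖ = 1 := by rw [norm_mul, hω'n, hn1, one_mul]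
          rw [← mul_zero (((r (r0 u) : ℝ) : ℂ))]
          apply Tendsto.const_mul
          have hsub : 0 < ‖ω' * e1 u - 1‖ := norm_pos_iff.2 (sub_ne_zero.2 hz1)
          refine squeeze_zero_norm (a := fun N : ℕ => (2 / ‖ω' * e1 u - 1‖) * (N : ℝ)⁻¹)
            (fun N => ?_) ?_
          · rw [norm_smul, norm_inv, Real.norm_of_nonneg (Nat.cast_nonneg N), geom_sum_eq hz1,
              norm_div, mul_comm]
            have : ‖(ω' * e1 u) ^ N - 1‖ ≤ 2 := by
              refine (norm_sub_le _ _).trans ?_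
              rw [norm_pow, hz2, one_pow, norm_one]; norm_num
            gcongr
          · have := tendsto_inv_atTop_nhds_zero_nat (𝕜 := ℝ)
            have h2 := this.const_mul (2 / ‖ω' * e1 u - 1‖)
            rwa [mul_zero] at h2
  have hG0 : ∫ u, G u ∂μ = 0 := tendsto_nhds_unique hlim hces
  -- conclude
  set g : S (m + 2) → ℝ := fun u => if e1 u = ω then r (r0 u) else 0 with hg
  have hGg : ∀ u, G u = ((g u : ℝ) : ℂ) := by
    intro u
    simp only [hG, hg]
    split_ifs <;> simp
  have hms : MeasurableSet {u : S (m + 2) | e1 u = ω} := measurable_e1 (measurableSet_singleton ω)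
  have hgm : Measurable g := by
    apply Measurable.ite hms _ measurable_const
    exact (hrc.comp continuous_r0).measurable
  have hg0 : ∫ u, g u ∂μ = 0 := by
    have : ∫ u, G u ∂μ = ((∫ u, g u ∂μ : ℝ) : ℂ) := by
      simp only [hGg]
      exact integral_ofReal
    rw [this] at hG0
    exact_mod_cast hG0
  have hgn : ∀ u, 0 ≤ g u := by
    intro u
    simp only [hg]
    split_ifs
    · exact bmp_nonneg _ _ _
    · exact le_rfl
  have hgi : Integrable g μ := by
    refine Integrable.of_bound hgm.aestronglyMeasurable 1 (Filter.Eventually.of_forall fun u => ?_)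
    rw [Real.norm_of_nonneg (hgn u)]
    simp only [hg]
    split_ifs
    · exact bmp_le_one (by linarith)
    · exact zero_le_one
  have hae : g =ᵐ[μ] 0 := (integral_eq_zero_iff_of_nonneg hgn hgi).1 hg0
  have hsub : {u | a < r0 u ∧ r0 u < b ∧ e1 u = ω} ⊆ {u | ¬ g u = (0 : S (m + 2) → ℝ) u} := by
    rintro u ⟨h1, h2, h3⟩
    show ¬ g u = 0
    simp only [hg]
    rw [if_pos h3]
    exact (bmp_pos h1 h2).ne'
  exact measure_mono_null hsub hae

end Pool.Agent.R231.SN
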