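import Mathlib
import Pool.Agent.R231.SN.Null

set_option autoImplicit false

open Filter Topology Set Metric MeasureTheory
open scoped ENNReal Pointwise

namespace Pool.Agent.R231.SN

variable {m : ℕ}

lemma sig_sub_null (W : Submodule ℝ (E (m + 2))) (hW : W ≠ ⊤) :
    (sig (m + 2)) {u | (u : E (m + 2)) ∈ W} = 0 := by
  have hclosed : IsClosed {u : S (m + 2) | (u : E (m + 2)) ∈ W} :=
    (Submodule.closed_of_finiteDimensional W).preimage continuous_subtype_val
  unfold sig
  rw [Measure.smul_apply, smul_eq_mul, Measure.toSphere_apply' _ hclosed.measurableSet]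
  have h1 : (volume : Measure (E (m + 2))) (Ioo (0 : ℝ) 1 • ((↑) '' {u : S (m + 2) | (u : E (m + 2)) ∈ W})) = 0 := by
    apply measure_mono_null _ (Measure.addHaar_submodule _ W hW)
    rintro _ ⟨c, _, _, ⟨u, hu, rfl⟩, rfl⟩
    exact W.smul_mem c hu
  rw [h1, mul_zero, mul_zero]

/-- the real subspace `u_k = 0` -/
noncomputable def Wk (k : Fin (m + 2)) : Submodule ℝ (E (m + 2)) :=
  (LinearMap.ker (EuclideanSpace.proj k : E (m + 2) →L[ℂ] ℂ).toLinearMap).restrictScalars ℝ

lemma mem_Wk {k : Fin (m + 2)} {x : E (m + 2)} : x ∈ Wk k ↔ x k = 0 := by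
  simp [Wk]

lemma Wk_ne_top (k : Fin (m + 2)) : Wk k ≠ ⊤ := by
  intro h
  have : EuclideanSpace.single k (1 : ℂ) ∈ Wk k := by rw [h]; trivial
  rw [mem_Wk] at this
  simp at this

lemma sig_zero_null : (sig (m + 2)) {u | r0 u = 0} = 0 := by
  apply measure_mono_null _ (sig_sub_null (Wk 0) (Wk_ne_top 0))
  intro u hu
  show (u : E (m + 2)) ∈ Wk 0
  rw [mem_Wk]
  exact norm_eq_zero.1 hu

lemma sig_one_null : (sig (m + 2)) {u | r0 u = 1} = 0 := by
  apply measure_mono_null _ (sig_sub_null (Wk 1) (Wk_ne_top 1))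
  intro u hu
  show (u : E (m + 2)) ∈ Wk 1
  rw [mem_Wk]
  have h := norm_sq_sum u
  rw [Fin.sum_univ_succ, Fin.sum_univ_succ] at h
  have h0 : ‖(u : E (m + 2)) 0‖ = 1 := hu
  have h1 : (0 : ℝ) ≤ ∑ i : Fin m, ‖(u : E (m + 2)) i.succ.succ‖ ^ 2 :=
    Finset.sum_nonneg fun _ _ => sq_nonneg _
  have h2 : ‖(u : E (m + 2)) (Fin.succ 0)‖ ^ 2 = 0 := by
    have := sq_nonneg ‖(u : E (m + 2)) (Fin.succ 0)‖
    rw [h0] at h
    nlinarith
  exact norm_eq_zero.1 (pow_eq_zero_iff two_ne_zero |>.1 h2)

lemma edge_null {μ : Measure (S (m + 2))} (hμ : μ ∈ PE (m + 2)) {c : ℝ}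
    (hc : (sig (m + 2)) {u | r0 u = c} = 0) : μ {u | r0 u = c} = 0 := by
  have hprob := hμ.1
  set r : ℕ → ℝ → ℝ := fun N t => max 0 (1 - N * |t - c|) with hr
  have hrc : ∀ N, Continuous (r N) := by
    intro N
    simp only [hr]
    fun_prop
  have hr0 : ∀ N t, 0 ≤ r N t := fun N t => le_max_left _ _
  have hr1 : ∀ N t, r N t ≤ 1 := by
    intro N t
    apply max_le zero_le_one
    have : 0 ≤ (N : ℝ) * |t - c| := by positivity
    linarith
  have hrr := continuous_r0 (m := m)
  have hms : MeasurableSet {u : S (m + 2) | r0 u = c} :=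
    (isClosed_singleton.preimage hrr).measurableSet
  -- the moments tend to zero
  have hA : Tendsto (fun N => A m 0 (r N)) atTop (𝓝 0) := by
    have h1 : Tendsto (fun N => ∫ u : S (m + 2), r N (r0 u) * r0 u ^ 0 ∂(sig (m + 2))) atTop
        (𝓝 (∫ u : S (m + 2), ({u : S (m + 2) | r0 u = c}).indicator (fun _ => (1 : ℝ)) u ∂(sig (m + 2)))) := by
      refine tendsto_integral_of_dominated_convergence (fun _ => 1) ?_ (integrable_const _) ?_ ?_
      · intro N
        have := hrc N
        exact (by fun_prop : Continuous (fun u : S (m + 2) => r N (r0 u) * r0 u ^ 0)).aestronglyMeasurable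
      · intro N
        refine Filter.Eventually.of_forall fun u => ?_
        rw [pow_zero, mul_one, Real.norm_of_nonneg (hr0 _ _)]
        exact hr1 _ _
      · refine Filter.Eventually.of_forall fun u => ?_
        by_cases h : r0 u = c
        · have h' : u ∈ {u : S (m + 2) | r0 u = c} := h
          rw [indicator_of_mem h']
          refine tendsto_const_nhds.congr fun N => ?_
          simp [hr, h]
        · have h' : u ∉ {u : S (m + 2) | r0 u = c} := h
          rw [indicator_of_notMem h']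
          refine tendsto_const_nhds.congr' ?_
          have hpos : 0 < |r0 u - c| := abs_pos.2 (sub_ne_zero.2 h)
          obtain ⟨N₀, hN₀⟩ := exists_nat_gt (1 / |r0 u - c|)
          filter_upwards [eventually_ge_atTop N₀] with N hN
          have h2 : 1 ≤ (N : ℝ) * |r0 u - c| := by
            have h3 : 1 / |r0 u - c| < N := hN₀.trans_le (by exact_mod_cast hN)
            rw [div_lt_iff₀ hpos] at h3
            exact h3.le
          simp only [hr]
          rw [max_eq_left (by linarith), zero_mul]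
    rw [integral_indicator_const _ hms, smul_eq_mul, mul_one, Measure.real, hc,
      ENNReal.toReal_zero] at h1
    exact h1
  -- the estimate
  have h15 : (0 : ℝ) < 1 / 5 := by norm_num
  have ha1 := A_bmp_pos (m := m) 0 (a := 1 / 5) (b := 2 / 5) h15 (by norm_num) (by norm_num)
  have ha2 := A_bmp_pos (m := m) 0 (a := 3 / 5) (b := 4 / 5) (by norm_num) (by norm_num) (by norm_num)
  set C : ℝ := 1 / ((3 / 5 : ℝ) ^ 2 - (2 / 5) ^ 2) * (1 / A m 0 (bmp (1 / 5) (2 / 5)) +
    1 / A m 0 (bmp (3 / 5) (4 / 5))) with hC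
  have hest : ∀ N, ‖J μ 0 (r N)‖ ≤ C * A m 0 (r N) := by
    intro N
    have h1 := main_est hμ 0 (hrc N) (bmp_cont (1 / 5) (2 / 5)) (bmp_cont (3 / 5) (4 / 5)) (hr0 N)
      (bmp_nonneg _ _) (bmp_nonneg _ _) (fun t => bmp_le_one (by norm_num))
      (fun t => bmp_le_one (by norm_num)) h15 le_rfl (show (1 / 5 : ℝ) < 2 / 5 by norm_num)
      (show (2 / 5 : ℝ) < 3 / 5 by norm_num)
      (fun t ht => ⟨(bmp_ne ht).1.le, (bmp_ne ht).2.le⟩) (fun t ht => (bmp_ne ht).1.le)
      (fun t _ h => absurd rfl h) ha1 ha2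
    refine h1.trans (le_of_eq ?_)
    rw [hC]; ring
  have hlow : ∀ N, μ.real {u | r0 u = c} ≤ ‖J μ 0 (r N)‖ := by
    intro N
    have e : J μ 0 (r N) = ((∫ u, r N (r0 u) ∂μ : ℝ) : ℂ) := by
      unfold J
      simp only [pow_zero, mul_one]
      exact integral_ofReal
    have hnn : 0 ≤ ∫ u, r N (r0 u) ∂μ := integral_nonneg fun u => hr0 _ _
    rw [e, Complex.norm_real, Real.norm_of_nonneg hnn]
    have h2 : ∫ u, ({u : S (m + 2) | r0 u = c}).indicator (fun _ => (1 : ℝ)) u ∂μ ≤
        ∫ u, r N (r0 u) ∂μ := by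
      apply integral_mono
      · exact (integrable_const (1 : ℝ)).indicator hms
      · have := hrc N
        exact integrable_cont (by fun_prop) _
      · intro u
        by_cases h : r0 u = c
        · have h' : u ∈ {u : S (m + 2) | r0 u = c} := h
          rw [indicator_of_mem h']
          simp [hr, h]
        · have h' : u ∉ {u : S (m + 2) | r0 u = c} := h
          rw [indicator_of_notMem h']
          exact hr0 _ _
    rw [integral_indicator_const _ hms, smul_eq_mul, mul_one] at h2
    exact h2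
  have hfin : μ.real {u | r0 u = c} ≤ 0 := by
    have h3 : Tendsto (fun N => C * A m 0 (r N)) atTop (𝓝 (C * 0)) := hA.const_mul C
    rw [mul_zero] at h3
    exact ge_of_tendsto' h3 fun N => (hlow N).trans (hest N)
  have h4 : μ.real {u | r0 u = c} = 0 := le_antisymm hfin measureReal_nonneg
  rwa [measureReal_eq_zero_iff] at h4

/-- the real hyperplane `Re u₁ = 0` is null for all measures of `P_E` -/
theorem hyper_null {μ : Measure (S (m + 2))} (hμ : μ ∈ PE (m + 2)) :
    μ {u | ((u : E (m + 2)) 0).re = 0} = 0 := by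
  have h0 := edge_null hμ sig_zero_null
  have h1 := edge_null hμ sig_one_null
  have hray : ∀ (ω : ℂ), ‖ω‖ = 1 → μ (⋃ N : ℕ, {u | 1 / ((N : ℝ) + 3) < r0 u ∧
      r0 u < 1 - 1 / ((N : ℝ) + 3) ∧ e1 u = ω}) = 0 := by
    intro ω hω
    rw [measure_iUnion_null_iff]
    intro N
    have hN : (0 : ℝ) < 1 / ((N : ℝ) + 3) := by positivity
    have hN2 : 1 / ((N : ℝ) + 3) ≤ 1 / 3 := by
      apply one_div_le_one_div_of_le (by norm_num)
      have : (0 : ℝ) ≤ N := Nat.cast_nonneg N
      linarith
    exact ray_null hμ hN (by linarith) (by linarith) hω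
  have hI := hray Complex.I (by simp)
  have hI' := hray (-Complex.I) (by simp)
  refine measure_mono_null ?_ (measure_union_null (measure_union_null h0 h1) (measure_union_null hI hI'))
  intro u hu
  have hu' : ((u : E (m + 2)) 0).re = 0 := hu
  by_cases c0 : r0 u = 0
  · exact Or.inl (Or.inl c0)
  by_cases c1 : r0 u = 1
  · exact Or.inl (Or.inr c1)
  right
  have hpos : 0 < r0 u := lt_of_le_of_ne (r0_nonneg u) (Ne.symm c0)
  have hlt : r0 u < 1 := lt_of_le_of_ne (r0_le_one u) c1
  obtain ⟨N, hN⟩ := exists_nat_gt (1 / min (r0 u) (1 - r0 u))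
  have hmin : 0 < min (r0 u) (1 - r0 u) := lt_min hpos (by linarith)
  have hN' : 1 / ((N : ℝ) + 3) < min (r0 u) (1 - r0 u) := by
    rw [div_lt_iff₀ hmin] at hN
    rw [div_lt_iff₀ (by positivity)]
    nlinarith
  obtain ⟨n1, n2⟩ := lt_min_iff.1 hN'
  have hre : (e1 u).re = 0 := by
    unfold e1
    rw [Complex.div_ofReal_re, hu', zero_div]
  have hn : ‖e1 u‖ = 1 := by
    unfold e1
    rw [norm_div, Complex.norm_real, Real.norm_of_nonneg (r0_nonneg u)]
    exact div_self hpos.ne'
  have him : (e1 u).im = 1 ∨ (e1 u).im = -1 := by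
    have h2 : Complex.normSq (e1 u) = 1 := by rw [Complex.normSq_eq_norm_sq, hn]; norm_num
    rw [Complex.normSq_apply, hre] at h2
    have : ((e1 u).im - 1) * ((e1 u).im + 1) = 0 := by linarith
    rcases mul_eq_zero.1 this with h | h
    · left; linarith
    · right; linarith
  rcases him with h | h
  · left
    rw [mem_iUnion]
    exact ⟨N, n1, by linarith, Complex.ext (by simp [hre]) (by simp [h])⟩
  · right
    rw [mem_iUnion]
    exact ⟨N, n1, by linarith, Complex.ext (by simp [hre]) (by simp [h])⟩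

end Pool.Agent.R231.SN
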