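import Mathlib
import Pool.Agent.R231.SN.Edge

set_option autoImplicit false

open Filter Topology Set Metric MeasureTheory
open scoped ENNReal Pointwise

namespace Pool.Agent.R231.SN

/-- the inner product `⟨z, w⟩ = ∑ z_k w̄_k` -/
noncomputable def br {n : ℕ} (z w : E n) : ℂ := ∑ k, z k * (starRingEnd ℂ) (w k)

/-- the Carathéodory class `𝓜` -/
def Mcl (n : ℕ) : Set (E n → E n) :=
  {f | DifferentiableOn ℂ f (ball 0 1) ∧ f 0 = 0 ∧ fderiv ℂ f 0 = ContinuousLinearMap.id ℂ (E n) ∧
    ∀ z ∈ ball (0 : E n) 1, z ≠ 0 → 0 < (br (f z) z).re}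

/-- `μ` represents `f`: the Herglotz formula -/
def Rep {n : ℕ} (μ : Measure (S n)) (f : E n → E n) : Prop :=
  ∀ z ∈ ball (0 : E n) 1, f z = ∫ u : S n,
    ((2 * (n : ℂ) / (1 - br z u) ^ (n + 1)) • ((u : E n) - z) - (2 * (n : ℂ)) • (u : E n) - z) ∂μ

/-- the set `P_H` of the measures `μ_f ∈ P_E` that represent the mappings `f ∈ 𝓜` -/
def PH (n : ℕ) : Set (Measure (S n)) := {μ | μ ∈ PE n ∧ ∃ f ∈ Mcl n, Rep μ f}

/-- a complex subspace is `P_H`-null -/
def NullC {n : ℕ} (W : Submodule ℂ (E n)) : Prop := ∀ μ ∈ PH n, μ {u | (u : E n) ∈ W} = 0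

/-- a real subspace is `P_H`-null -/
def NullR {n : ℕ} (W : Submodule ℝ (E n)) : Prop := ∀ μ ∈ PH n, μ {u | (u : E n) ∈ W} = 0

variable {m : ℕ}

lemma norm_coord_le (z : E (m + 2)) (k : Fin (m + 2)) : ‖z k‖ ≤ ‖z‖ := PiLp.norm_apply_le z k

lemma br_eq (z w : E (m + 2)) : br z w = inner ℂ w z := by
  unfold br
  rw [PiLp.inner_apply]
  refine Finset.sum_congr rfl fun k _ => ?_
  simp

lemma norm_br_le (z : E (m + 2)) (u : S (m + 2)) : ‖br z u‖ ≤ ‖z‖ := by
  rw [br_eq]
  have h : ‖(u : E (m + 2))‖ = 1 := norm_eq_of_mem_sphere u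
  have := norm_inner_le_norm (𝕜 := ℂ) (u : E (m + 2)) z
  rwa [h, one_mul] at this

lemma continuous_br (z : E (m + 2)) : Continuous fun u : S (m + 2) => br z (u : E (m + 2)) := by
  unfold br
  refine continuous_finsetSum _ fun k _ => ?_
  exact continuous_const.mul (Complex.continuous_conj.comp (continuous_coord k))

/-- a function with a nonzero weight under the diagonal circle action has integral zero -/
lemma integral_diag_zero {g : S (m + 2) → ℂ} (hg : Continuous g) (w : ℤ) (hw : w ≠ 0)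
    (h : ∀ (t : ℝ) (u : S (m + 2)), g (smap (ph (fun _ => t)) u) =
      Complex.exp ((w * t : ℝ) * Complex.I) * g u) :
    ∫ u, g u ∂(sig (m + 2)) = 0 := by
  have h1 := integral_smap (ph (fun _ => (Real.pi / w))) hg
  simp only [h] at h1
  have hw' : (w : ℝ) ≠ 0 := by exact_mod_cast hw
  have e : (w : ℝ) * (Real.pi / w) = Real.pi := by field_simp
  rw [e, integral_const_mul, Complex.exp_pi_mul_I] at h1
  have h3 : (2 : ℂ) * (∫ u, g u ∂(sig (m + 2))) = 0 := by
    linear_combination (-1) * h1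
  rcases mul_eq_zero.1 h3 with h4 | h4
  · norm_num at h4
  · exact h4

lemma coord_diag (k : Fin (m + 2)) (t : ℝ) (u : S (m + 2)) :
    ((smap (ph (fun _ => t)) u : S (m + 2)) : E (m + 2)) k =
      Complex.exp ((t : ℂ) * Complex.I) * (u : E (m + 2)) k := by
  show ph (fun _ => t) u k = _
  rw [ph_apply]

lemma br_diag (z : E (m + 2)) (t : ℝ) (u : S (m + 2)) :
    br z (smap (ph (fun _ => t)) u : S (m + 2)) = Complex.exp ((-t : ℝ) * Complex.I) * br z u := by
  unfold br
  rw [Finset.mul_sum]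
  refine Finset.sum_congr rfl fun k _ => ?_
  rw [coord_diag, map_mul, conj_exp_I]
  ring

/-- second moments of the surface measure -/
lemma second_moment (k : Fin (m + 2)) :
    ∫ u : S (m + 2), ((‖(u : E (m + 2)) k‖ ^ 2 : ℝ) : ℂ) ∂(sig (m + 2)) = 1 / ((m : ℂ) + 2) := by
  set I : Fin (m + 2) → ℝ := fun k => ∫ u : S (m + 2), ‖(u : E (m + 2)) k‖ ^ 2 ∂(sig (m + 2)) with hI
  have hc : ∀ k : Fin (m + 2), Continuous (fun u : S (m + 2) => ‖(u : E (m + 2)) k‖ ^ 2) := by
    intro k
    have := continuous_coord (n := m + 2) k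
    fun_prop
  have heq : ∀ l : Fin (m + 2), I l = I k := by
    intro l
    have h3 := integral_smap_real (pe (Equiv.swap k l)) (hc k)
    have h5 : ∀ u : S (m + 2), ((smap (pe (Equiv.swap k l)) u : S (m + 2)) : E (m + 2)) k =
        (u : E (m + 2)) l := by
      intro u
      show pe (Equiv.swap k l) (u : E (m + 2)) k = _
      rw [pe_apply, Equiv.symm_swap, Equiv.swap_apply_left]
    simp only [h5] at h3
    exact h3
  have hsum : ∑ l, I l = 1 := by
    simp only [hI]
    rw [← integral_finsetSum _ fun k _ => integrable_cont (hc k) _]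
    simp only [norm_sq_sum]
    simp
  have h1 : ((m : ℝ) + 2) * I k = 1 := by
    rw [← hsum, Finset.sum_congr rfl fun l _ => heq l]
    simp
  have h2 : I k = 1 / ((m : ℝ) + 2) := by
    field_simp
    linarith
  have h3 := integral_ofReal (𝕜 := ℂ) (μ := sig (m + 2)) (f := fun u : S (m + 2) => ‖(u : E (m + 2)) k‖ ^ 2)
  refine h3.trans ?_
  show ((I k : ℝ) : ℂ) = _
  rw [h2]
  push_cast
  rfl

lemma cross_moment {k l : Fin (m + 2)} (hkl : k ≠ l) :
    ∫ u : S (m + 2), (u : E (m + 2)) k * (starRingEnd ℂ) ((u : E (m + 2)) l) ∂(sig (m + 2)) = 0 := by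
  refine integral_weight_zero (g := fun u : S (m + 2) => (u : E (m + 2)) k * (starRingEnd ℂ) ((u : E (m + 2)) l))
    ((continuous_coord k).mul (Complex.continuous_conj.comp (continuous_coord l)))
    k 1 one_ne_zero ?_
  intro t u
  show ((smap (ph (Pi.single k t)) u : S (m + 2)) : E (m + 2)) k *
    (starRingEnd ℂ) (((smap (ph (Pi.single k t)) u : S (m + 2)) : E (m + 2)) l) = _
  rw [coord_ph, coord_ph, if_pos rfl, if_neg (Ne.symm hkl)]
  simp
  ring

/-- expansion of the kernel integrated against the surface measure -/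
lemma kernel_hasSum {z : E (m + 2)} (hz : ‖z‖ < 1) {c : S (m + 2) → ℂ} (hc : Continuous c)
    (hc1 : ∀ u, ‖c u‖ ≤ 1) :
    HasSum (fun j : ℕ => ((j + (m + 2)).choose (m + 2) : ℂ) *
        ∫ u, c u * br z u ^ j ∂(sig (m + 2)))
      (∫ u, c u * (1 / (1 - br z u) ^ (m + 2 + 1)) ∂(sig (m + 2))) := by
  set F : ℕ → S (m + 2) → ℂ := fun j u => c u * (((j + (m + 2)).choose (m + 2) : ℂ) * br z u ^ j) with hF
  have hbr := continuous_br z
  have hFc : ∀ j, Continuous (F j) := by
    intro j; simp only [hF]; fun_prop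
  have hsummable : Summable fun j : ℕ => ((j + (m + 2)).choose (m + 2) : ℝ) * ‖z‖ ^ j :=
    summable_choose_mul_geometric_of_norm_lt_one (m + 2) (by rwa [norm_norm])
  have h1 := hasSum_integral_of_summable_integral_norm (μ := sig (m + 2)) (F := F)
    (fun j => integrable_cont (hFc j) _) (by
      refine Summable.of_nonneg_of_le (fun j => integral_nonneg fun u => norm_nonneg _) (fun j => ?_)
        hsummable
      have h2 : ∫ u, ‖F j u‖ ∂(sig (m + 2)) ≤
          ∫ _u : S (m + 2), ((j + (m + 2)).choose (m + 2) : ℝ) * ‖z‖ ^ j ∂(sig (m + 2)) := by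
        apply integral_mono (integrable_cont (hFc j).norm _) (integrable_const _)
        intro u
        show ‖F j u‖ ≤ _
        simp only [hF, norm_mul, norm_pow, Complex.norm_natCast]
        calc ‖c u‖ * (((j + (m + 2)).choose (m + 2) : ℝ) * ‖br z u‖ ^ j)
            ≤ 1 * (((j + (m + 2)).choose (m + 2) : ℝ) * ‖z‖ ^ j) := by
              gcongr
              · exact hc1 u
              · exact norm_br_le z u
          _ = _ := one_mul _
      simpa using h2)
  have h3 : ∀ u : S (m + 2), ∑' j, F j u = c u * (1 / (1 - br z u) ^ (m + 2 + 1)) := by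
    intro u
    have h4 : ‖br z u‖ < 1 := (norm_br_le z u).trans_lt hz
    simp only [hF]
    rw [tsum_mul_left]
    congr 1
    have h5 := tsum_choose_mul_geometric_of_norm_lt_one' (m + 2) h4
    rw [h5, Ring.inverse_eq_inv', inv_pow, one_div]
  simp only [h3] at h1
  have h6 : ∀ j, ∫ u, F j u ∂(sig (m + 2)) = ((j + (m + 2)).choose (m + 2) : ℂ) *
      ∫ u, c u * br z u ^ j ∂(sig (m + 2)) := by
    intro j
    rw [← integral_const_mul]
    congr 1
    funext u
    simp only [hF]
    ring
  simp only [h6] at h1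
  exact h1

lemma kernel_one {z : E (m + 2)} (hz : ‖z‖ < 1) :
    ∫ u : S (m + 2), (1 / (1 - br z u) ^ (m + 2 + 1)) ∂(sig (m + 2)) = 1 := by
  have h1 := kernel_hasSum hz (c := fun _ => 1) continuous_const (by simp)
  have h2 : HasSum (fun j : ℕ => ((j + (m + 2)).choose (m + 2) : ℂ) *
      ∫ u : S (m + 2), (1 : ℂ) * br z u ^ j ∂(sig (m + 2))) 1 := by
    have h3 : ∀ j : ℕ, j ≠ 0 → ((j + (m + 2)).choose (m + 2) : ℂ) *
        ∫ u : S (m + 2), (1 : ℂ) * br z u ^ j ∂(sig (m + 2)) = 0 := by
      intro j hj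
      rw [integral_diag_zero (g := fun u : S (m + 2) => (1 : ℂ) * br z u ^ j)
        (continuous_const.mul ((continuous_br z).pow j)) (-j) (by omega) ?_, mul_zero]
      intro t u
      show 1 * br z (smap (ph (fun _ => t)) u : S (m + 2)) ^ j = _
      rw [br_diag, mul_pow, ← Complex.exp_nat_mul]
      have e : (j : ℂ) * (((-t : ℝ) : ℂ) * Complex.I) = ((((-j : ℤ) : ℝ) * t : ℝ) : ℂ) * Complex.I := by
        push_cast; ring
      rw [e]; ring
    have h4 := hasSum_single 0 h3
    simpa using h4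
  have h5 := h1.unique h2
  simpa using h5

lemma first_moment (k : Fin (m + 2)) : ∫ u : S (m + 2), (u : E (m + 2)) k ∂(sig (m + 2)) = 0 := by
  refine integral_diag_zero (g := fun u : S (m + 2) => (u : E (m + 2)) k) (continuous_coord k) 1
    one_ne_zero ?_
  intro t u
  show ((smap (ph (fun _ => t)) u : S (m + 2)) : E (m + 2)) k = _
  rw [coord_diag]
  simp

lemma kernel_coord {z : E (m + 2)} (hz : ‖z‖ < 1) (k : Fin (m + 2)) :
    ∫ u : S (m + 2), (u : E (m + 2)) k * (1 / (1 - br z u) ^ (m + 2 + 1)) ∂(sig (m + 2)) =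
      ((m : ℂ) + 3) / ((m : ℂ) + 2) * z k := by
  have h1 := kernel_hasSum hz (c := fun u => (u : E (m + 2)) k) (continuous_coord k)
    (fun u => coord_le_one u k)
  have hbr1 : ∫ u : S (m + 2), (u : E (m + 2)) k * br z u ^ 1 ∂(sig (m + 2)) =
      1 / ((m : ℂ) + 2) * z k := by
    have e : ∀ u : S (m + 2), (u : E (m + 2)) k * br z u ^ 1 =
        ∑ l, z l * ((u : E (m + 2)) k * (starRingEnd ℂ) ((u : E (m + 2)) l)) := by
      intro u
      rw [pow_one]
      unfold br
      rw [Finset.mul_sum]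
      exact Finset.sum_congr rfl fun l _ => by ring
    simp only [e]
    have hcl : ∀ l : Fin (m + 2), Continuous fun u : S (m + 2) =>
        z l * ((u : E (m + 2)) k * (starRingEnd ℂ) ((u : E (m + 2)) l)) := fun l =>
      continuous_const.mul ((continuous_coord k).mul (Complex.continuous_conj.comp (continuous_coord l)))
    rw [integral_finsetSum _ fun l _ => integrable_cont (hcl l) _, Finset.sum_eq_single k]
    · rw [integral_const_mul]
      have h3 : ∫ u : S (m + 2), (u : E (m + 2)) k * (starRingEnd ℂ) ((u : E (m + 2)) k) ∂(sig (m + 2)) =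
          1 / ((m : ℂ) + 2) := by
        rw [← second_moment k]
        congr 1
        funext u
        rw [Complex.mul_conj, Complex.normSq_eq_norm_sq]
      rw [h3]; ring
    · intro l _ hl
      rw [integral_const_mul, cross_moment (Ne.symm hl), mul_zero]
    · intro h; exact absurd (Finset.mem_univ k) h
  have h2 : HasSum (fun j : ℕ => ((j + (m + 2)).choose (m + 2) : ℂ) *
      ∫ u : S (m + 2), (u : E (m + 2)) k * br z u ^ j ∂(sig (m + 2)))
      (((m : ℂ) + 3) / ((m : ℂ) + 2) * z k) := by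
    have h3 : ∀ j : ℕ, j ≠ 1 → ((j + (m + 2)).choose (m + 2) : ℂ) *
        ∫ u : S (m + 2), (u : E (m + 2)) k * br z u ^ j ∂(sig (m + 2)) = 0 := by
      intro j hj
      rw [integral_diag_zero (g := fun u : S (m + 2) => (u : E (m + 2)) k * br z u ^ j)
        ((continuous_coord k).mul ((continuous_br z).pow j)) (1 - j) (by omega) ?_, mul_zero]
      intro t u
      show ((smap (ph (fun _ => t)) u : S (m + 2)) : E (m + 2)) k *
        br z (smap (ph (fun _ => t)) u : S (m + 2)) ^ j = _
      rw [br_diag, coord_diag, mul_pow, ← Complex.exp_nat_mul]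
      have e : ((((1 - j : ℤ) : ℝ) * t : ℝ) : ℂ) * Complex.I =
          (t : ℂ) * Complex.I + (j : ℂ) * (((-t : ℝ) : ℂ) * Complex.I) := by
        push_cast; ring
      rw [e, Complex.exp_add]; ring
    have h4 := hasSum_single 1 h3
    rw [hbr1] at h4
    have e2 : ((1 + (m + 2)).choose (m + 2) : ℂ) * (1 / ((m : ℂ) + 2) * z k) =
        ((m : ℂ) + 3) / ((m : ℂ) + 2) * z k := by
      have : (1 + (m + 2)).choose (m + 2) = m + 3 := by
        rw [add_comm 1 (m + 2), Nat.choose_succ_self_right]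
      rw [this]
      push_cast
      ring
    rw [e2] at h4
    exact h4
  exact h1.unique h2

lemma one_mem_Espan : (fun _ => (1 : ℂ)) ∈ Espan (m + 2) := by
  have h1 : (fun _ : S (m + 2) => (1 : ℂ)) = ∑ k : Fin (m + 2), fun u : S (m + 2) =>
      (starRingEnd ℂ) ((u : E (m + 2)) k) * mon (Pi.single k 1) u := by
    funext u
    rw [Finset.sum_apply]
    have h2 : ∀ k : Fin (m + 2), mon (Pi.single k 1) u = (u : E (m + 2)) k := by
      intro k
      unfold mon
      rw [Finset.prod_eq_single k]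
      · simp
      · intro l _ hl; simp [hl]
      · intro h; exact absurd (Finset.mem_univ k) h
    simp only [h2]
    have h3 : ∀ k : Fin (m + 2), (starRingEnd ℂ) ((u : E (m + 2)) k) * (u : E (m + 2)) k =
        ((‖(u : E (m + 2)) k‖ ^ 2 : ℝ) : ℂ) := by
      intro k
      rw [mul_comm, Complex.mul_conj, Complex.normSq_eq_norm_sq]
    simp only [h3]
    rw [← Complex.ofReal_sum, norm_sq_sum, Complex.ofReal_one]
  rw [h1]
  refine Submodule.sum_mem _ fun k _ => Submodule.subset_span (Or.inl ⟨k, Pi.single k 1, ?_, rfl⟩)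
  intro h
  have := congrFun h k
  simp at this

lemma sig_mem_PE : sig (m + 2) ∈ PE (m + 2) := by
  refine ⟨inferInstance, fun F ε hε => ⟨fun _ => 1, one_mem_Espan, fun g _ => ?_⟩⟩
  simp [hε]

/-- the surface measure represents the identity -/
theorem sig_mem_PH : sig (m + 2) ∈ PH (m + 2) := by
  refine ⟨sig_mem_PE, fun z => z, ⟨differentiableOn_id, rfl, fderiv_fun_id, ?_⟩, ?_⟩
  · intro z _ hz0
    have : br z z = ((‖z‖ ^ 2 : ℝ) : ℂ) := by
      rw [br_eq, inner_self_eq_norm_sq_to_K]
      norm_cast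
    rw [this, Complex.ofReal_re]
    have := norm_pos_iff.2 hz0
    positivity
  · intro z hz
    have hz' : ‖z‖ < 1 := by rwa [mem_ball_zero_iff] at hz
    have hne : ∀ u : S (m + 2), (1 - br z u) ^ (m + 2 + 1) ≠ 0 := by
      intro u
      apply pow_ne_zero
      intro h
      have h1 := (norm_br_le z u).trans_lt hz'
      have h2 : br z u = 1 := by linear_combination -h
      rw [h2, norm_one] at h1
      exact lt_irrefl _ h1
    have hbr := continuous_br z
    have hk : Continuous fun u : S (m + 2) => 1 / (1 - br z u) ^ (m + 2 + 1) :=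
      continuous_const.div ((continuous_const.sub hbr).pow _) hne
    have hcont : Continuous fun u : S (m + 2) =>
        ((2 * ((m + 2 : ℕ) : ℂ) / (1 - br z u) ^ (m + 2 + 1)) • ((u : E (m + 2)) - z) -
          (2 * ((m + 2 : ℕ) : ℂ)) • (u : E (m + 2)) - z) := by
      have h1 : Continuous fun u : S (m + 2) => 2 * ((m + 2 : ℕ) : ℂ) / (1 - br z u) ^ (m + 2 + 1) :=
        continuous_const.div ((continuous_const.sub hbr).pow _) hne
      fun_prop
    ext k
    have h1 := (EuclideanSpace.proj k : E (m + 2) →L[ℂ] ℂ).integral_comp_comm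
      (integrable_cont hcont (sig (m + 2)))
    have h2 : (EuclideanSpace.proj k : E (m + 2) →L[ℂ] ℂ) (∫ u : S (m + 2),
        ((2 * ((m + 2 : ℕ) : ℂ) / (1 - br z u) ^ (m + 2 + 1)) • ((u : E (m + 2)) - z) -
          (2 * ((m + 2 : ℕ) : ℂ)) • (u : E (m + 2)) - z) ∂(sig (m + 2))) = z k := by
      rw [← h1]
      have e : ∀ u : S (m + 2), (EuclideanSpace.proj k : E (m + 2) →L[ℂ] ℂ)
          ((2 * ((m + 2 : ℕ) : ℂ) / (1 - br z u) ^ (m + 2 + 1)) • ((u : E (m + 2)) - z) -
          (2 * ((m + 2 : ℕ) : ℂ)) • (u : E (m + 2)) - z) =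
          (2 * ((m + 2 : ℕ) : ℂ)) * ((u : E (m + 2)) k * (1 / (1 - br z u) ^ (m + 2 + 1))) -
          (2 * ((m + 2 : ℕ) : ℂ) * z k) * (1 / (1 - br z u) ^ (m + 2 + 1)) -
          ((2 * ((m + 2 : ℕ) : ℂ)) * (u : E (m + 2)) k + z k) := by
        intro u
        show (2 * ((m + 2 : ℕ) : ℂ) / (1 - br z u) ^ (m + 2 + 1)) * ((u : E (m + 2)) k - z k) -
          (2 * ((m + 2 : ℕ) : ℂ)) * (u : E (m + 2)) k - z k = _
        ring
      simp only [e]
      have i1 : Integrable (fun u : S (m + 2) => (2 * ((m + 2 : ℕ) : ℂ)) *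
          ((u : E (m + 2)) k * (1 / (1 - br z u) ^ (m + 2 + 1)))) (sig (m + 2)) :=
        integrable_cont (continuous_const.mul ((continuous_coord k).mul hk)) _
      have i2 : Integrable (fun u : S (m + 2) => (2 * ((m + 2 : ℕ) : ℂ) * z k) *
          (1 / (1 - br z u) ^ (m + 2 + 1))) (sig (m + 2)) :=
        integrable_cont (continuous_const.mul hk) _
      have i3 : Integrable (fun u : S (m + 2) => (2 * ((m + 2 : ℕ) : ℂ)) * (u : E (m + 2)) k + z k)
          (sig (m + 2)) :=
        integrable_cont ((continuous_const.mul (continuous_coord k)).add continuous_const) _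
      have i4 : Integrable (fun u : S (m + 2) => (2 * ((m + 2 : ℕ) : ℂ)) * (u : E (m + 2)) k)
          (sig (m + 2)) :=
        integrable_cont (continuous_const.mul (continuous_coord k)) _
      have s1 := integral_sub (i1.sub i2) i3
      have s2 := integral_sub i1 i2
      have s3 := integral_add i4 (integrable_const (μ := sig (m + 2)) (z k))
      have s4 : ∀ f g : S (m + 2) → ℂ, ∫ u, (f - g) u ∂(sig (m + 2)) =
        ∫ u, (f u - g u) ∂(sig (m + 2)) := fun f g => rfl
      rw [s4, s2, s3] at s1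
      refine s1.trans ?_
      rw [integral_const_mul, integral_const_mul, integral_const_mul, kernel_one hz',
        kernel_coord hz' k, first_moment k]
      simp only [integral_const, probReal_univ, one_smul]
      have hm : (m : ℂ) + 2 ≠ 0 := by
        have : ((m + 2 : ℕ) : ℂ) ≠ 0 := by exact_mod_cast (by omega : m + 2 ≠ 0)
        simpa using this
      push_cast
      field_simp
      ring
    exact h2.symm

end Pool.Agent.R231.SN
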